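import Pool.Agent.W498.Lift.Ring
import Pool.Agent.Helper165.Main

/-!
The charts of the blow-up of the vertex.
-/

set_option autoImplicit false

open MvPolynomial HomogeneousLocalization Pool.Agent.Helper165

universe u

namespace Pool.Agent.W498.Lift

variable (p r : ℕ) (k : Type u) [Field k]

/-- the field of rational functions -/
abbrev LF : Type u := FractionRing (PR r k)

/-- polynomials as rational functions -/
noncomputable def al (f : PR r k) : LF r k := algebraMap (PR r k) (LF r k) f

/-- the other index -/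
def ot (a : Fin 2) : Fin 2 := 1 - a

lemma ot_zero : ot 0 = 1 := rfl
lemma ot_one : ot 1 = 0 := rfl

/-- coordinates of the chart `a` -/
noncomputable def tL (a : Fin 2) : Fin 2 ⊕ Fin r → LF r k
  | Sum.inl c => if c = 0 then algebraMap (PR r k) (LF r k) (X (Sum.inl a)) ^ p else
      algebraMap (PR r k) (LF r k) (X (Sum.inl (ot a))) /
        algebraMap (PR r k) (LF r k) (X (Sum.inl a))
  | Sum.inr j => algebraMap (PR r k) (LF r k) (X (Sum.inr j))

lemma tL_0 (a : Fin 2) : tL p r k a (Sum.inl 0) =
    algebraMap (PR r k) (LF r k) (X (Sum.inl a)) ^ p := by simp [tL]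

lemma tL_1 (a : Fin 2) : tL p r k a (Sum.inl 1) =
    algebraMap (PR r k) (LF r k) (X (Sum.inl (ot a))) /
      algebraMap (PR r k) (LF r k) (X (Sum.inl a)) := by simp [tL]

lemma tL_r (a : Fin 2) (j : Fin r) : tL p r k a (Sum.inr j) =
    algebraMap (PR r k) (LF r k) (X (Sum.inr j)) := rfl

lemma algebraMap_X_ne_zero (v : Fin 2 ⊕ Fin r) : algebraMap (PR r k) (LF r k) (X v) ≠ 0 := by
  intro h
  have h2 := (map_eq_zero_iff _ (IsFractionRing.injective (PR r k) (LF r k))).1 h
  exact MvPolynomial.X_ne_zero v h2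

/-- The chart algebra `k[s^p, t / s, y]` -/
noncomputable abbrev chartAlg (a : Fin 2) : Subalgebra k (LF r k) :=
  (aeval (tL p r k a) : PR r k →ₐ[k] LF r k).range

lemma tL_mem (a : Fin 2) (v : Fin 2 ⊕ Fin r) : tL p r k a v ∈ chartAlg p r k a :=
  ⟨X v, by simp⟩

lemma dg_ot (a : Fin 2) (m : (Fin 2 ⊕ Fin r) →₀ ℕ) :
    dg m = m (Sum.inl a) + m (Sum.inl (ot a)) := by
  fin_cases a
  · rfl
  · change m (Sum.inl 0) + m (Sum.inl 1) = m (Sum.inl 1) + m (Sum.inl 0)
    ring

/-- a monomial in terms of the chart coordinates -/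
lemma mono_mem (a : Fin 2) (m : (Fin 2 ⊕ Fin r) →₀ ℕ) (hm : p ∣ dg m) (c : k) :
    algebraMap (PR r k) (LF r k) (monomial m c) ∈ chartAlg p r k a := by
  obtain ⟨d, hd⟩ := hm
  have hx := algebraMap_X_ne_zero r k (Sum.inl a)
  have h1 : algebraMap (PR r k) (LF r k) (monomial m c) =
      algebraMap k (LF r k) c * ((algebraMap (PR r k) (LF r k) (X (Sum.inl a)) ^ m (Sum.inl a) *
        algebraMap (PR r k) (LF r k) (X (Sum.inl (ot a))) ^ m (Sum.inl (ot a))) *
        ∏ j : Fin r, algebraMap (PR r k) (LF r k) (X (Sum.inr j)) ^ m (Sum.inr j)) := by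
    rw [monomial_eq, map_mul, ← MvPolynomial.algebraMap_eq, ← IsScalarTower.algebraMap_apply,
      Finsupp.prod_fintype _ _ (by intro i; exact pow_zero _), map_prod, Fintype.prod_sum_type,
      Fin.prod_univ_two]
    simp only [map_pow]
    congr 2
    fin_cases a
    · rfl
    · exact mul_comm _ _
  have h2 : algebraMap (PR r k) (LF r k) (X (Sum.inl a)) ^ m (Sum.inl a) *
        algebraMap (PR r k) (LF r k) (X (Sum.inl (ot a))) ^ m (Sum.inl (ot a)) =
      tL p r k a (Sum.inl 0) ^ d * tL p r k a (Sum.inl 1) ^ m (Sum.inl (ot a)) := by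
    rw [tL_0, tL_1, div_pow, ← pow_mul, ← hd, dg_ot r a m, pow_add]
    field_simp
  rw [h1, h2]
  refine Subalgebra.mul_mem _ (Subalgebra.algebraMap_mem _ c) (Subalgebra.mul_mem _
    (Subalgebra.mul_mem _ (Subalgebra.pow_mem _ (tL_mem p r k a _) _)
      (Subalgebra.pow_mem _ (tL_mem p r k a _) _)) (Subalgebra.prod_mem _ fun j _ =>
        Subalgebra.pow_mem _ ?_ _))
  rw [← tL_r p r k a]
  exact tL_mem p r k a _

lemma cone_mem_chart (a : Fin 2) {b : PR r k} (hb : b ∈ coneRing p r k) :
    algebraMap (PR r k) (LF r k) b ∈ chartAlg p r k a := by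
  rw [b.as_sum, map_sum]
  refine Subalgebra.sum_mem _ fun m hm => ?_
  exact mono_mem p r k a m (hb m (mem_support_iff.mp hm)) _

lemma J_div_mem (a : Fin 2) {b : coneRing p r k} (hb : b ∈ idealJ p r k) :
    algebraMap (PR r k) (LF r k) (b : PR r k) / algebraMap (PR r k) (LF r k) (X (Sum.inl a)) ^ p ∈
      chartAlg p r k a := by
  unfold idealJ at hb
  have hx := algebraMap_X_ne_zero r k (Sum.inl a)
  induction hb using Submodule.span_induction with
  | mem b hb =>
    obtain ⟨i, rfl⟩ := hb
    rw [coe_xg, map_mul, map_pow, map_pow]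
    have hi : (i : ℕ) ≤ p := by omega
    fin_cases a
    · have h : algebraMap (PR r k) (LF r k) (X (Sum.inl 0)) ^ (p - (i : ℕ)) *
          algebraMap (PR r k) (LF r k) (X (Sum.inl 1)) ^ (i : ℕ) /
          algebraMap (PR r k) (LF r k) (X (Sum.inl 0)) ^ p =
          tL p r k 0 (Sum.inl 1) ^ (i : ℕ) := by
        have hp : p = (p - (i : ℕ)) + i := by omega
        conv_lhs =>
          enter [2]
          rw [hp, pow_add]
        rw [tL_1, div_pow, ot_zero]
        have hx0 := algebraMap_X_ne_zero r k (Sum.inl 0)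
        field_simp
      exact h ▸ Subalgebra.pow_mem _ (tL_mem p r k 0 _) _
    · have h : algebraMap (PR r k) (LF r k) (X (Sum.inl 0)) ^ (p - (i : ℕ)) *
          algebraMap (PR r k) (LF r k) (X (Sum.inl 1)) ^ (i : ℕ) /
          algebraMap (PR r k) (LF r k) (X (Sum.inl 1)) ^ p =
          tL p r k 1 (Sum.inl 1) ^ (p - (i : ℕ)) := by
        have hp : p = (p - (i : ℕ)) + i := by omega
        conv_lhs =>
          enter [2]
          rw [hp, pow_add]
        rw [tL_1, div_pow, ot_one]
        have hx1 := algebraMap_X_ne_zero r k (Sum.inl 1)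
        field_simp
      exact h ▸ Subalgebra.pow_mem _ (tL_mem p r k 1 _) _
  | zero => simp
  | add b c _ _ hb hc =>
    rw [Subalgebra.coe_add, map_add, add_div]
    exact Subalgebra.add_mem _ hb hc
  | smul c b _ hb =>
    rw [smul_eq_mul, Subalgebra.coe_mul, map_mul, mul_div_assoc]
    exact Subalgebra.mul_mem _ (cone_mem_chart p r k a c.2) hb

/-- elements of `J ^ n`, divided by `(s ^ p) ^ n`, are in the chart algebra -/
lemma Jpow_div_mem (a : Fin 2) (n : ℕ) {b : coneRing p r k} (hb : b ∈ idealJ p r k ^ n) :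
    algebraMap (PR r k) (LF r k) (b : PR r k) /
      (algebraMap (PR r k) (LF r k) (X (Sum.inl a)) ^ p) ^ n ∈ chartAlg p r k a := by
  induction n generalizing b with
  | zero =>
    rw [pow_zero, div_one]
    exact cone_mem_chart p r k a b.2
  | succ n ih =>
    rw [pow_succ] at hb
    induction hb using Submodule.smul_induction_on' with
    | smul c hc d hd =>
      rw [smul_eq_mul, Subalgebra.coe_mul, map_mul, pow_succ, mul_div_mul_comm]
      exact Subalgebra.mul_mem _ (ih hc) (J_div_mem p r k a hd)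
    | add c _ d _ hc hd =>
      rw [Subalgebra.coe_add, map_add, add_div]
      exact Subalgebra.add_mem _ hc hd

/-- each chart coordinate is a quotient `b / (s ^ p) ^ n` with `b` in `J ^ n` -/
lemma tL_eq_div (hp : 0 < p) (a : Fin 2) (v : Fin 2 ⊕ Fin r) :
    ∃ (n : ℕ) (b : coneRing p r k), b ∈ idealJ p r k ^ n ∧
      tL p r k a v = algebraMap (PR r k) (LF r k) (b : PR r k) /
        (algebraMap (PR r k) (LF r k) (X (Sum.inl a)) ^ p) ^ n := by
  have hx := algebraMap_X_ne_zero r k (Sum.inl a)
  rcases v with c | j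
  · by_cases hc : c = 0
    · subst hc
      exact ⟨0, tp p r k a, by simp, by rw [tL_0, pow_zero, div_one, coe_tp, map_pow]⟩
    · have hc1 : c = 1 := by omega
      subst hc1
      obtain ⟨q, rfl⟩ : ∃ q, p = q + 1 := ⟨p - 1, by omega⟩
      rw [tL_1]
      fin_cases a
      · refine ⟨1, xg (q + 1) r k 1 q (by omega), by rw [pow_one]; exact xg_mem_J _ r k _ _ _, ?_⟩
        rw [coe_xg, map_mul, map_pow, map_pow, pow_one, pow_one]
        change algebraMap (PR r k) (LF r k) (X (Sum.inl 1)) /
          algebraMap (PR r k) (LF r k) (X (Sum.inl 0)) = _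
        have hx0 := algebraMap_X_ne_zero r k (Sum.inl 0)
        change _ = _ / algebraMap (PR r k) (LF r k) (X (Sum.inl 0)) ^ (q + 1)
        rw [pow_succ]
        field_simp
      · refine ⟨1, xg (q + 1) r k q 1 (by omega), by rw [pow_one]; exact xg_mem_J _ r k _ _ _, ?_⟩
        rw [coe_xg, map_mul, map_pow, map_pow, pow_one, pow_one]
        change algebraMap (PR r k) (LF r k) (X (Sum.inl 0)) /
          algebraMap (PR r k) (LF r k) (X (Sum.inl 1)) = _
        have hx1 := algebraMap_X_ne_zero r k (Sum.inl 1)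
        change _ = _ / algebraMap (PR r k) (LF r k) (X (Sum.inl 1)) ^ (q + 1)
        rw [pow_succ]
        field_simp
  · exact ⟨0, yg p r k j, by simp, by rw [tL_r, pow_zero, div_one, coe_yg]⟩

/-- The coordinate functions are a transcendence basis. -/
lemma basisL : IsTranscendenceBasis k
    (algebraMap (PR r k) (LF r k) ∘ (X : Fin 2 ⊕ Fin r → PR r k)) := by
  have : Algebra.IsAlgebraic (PR r k) (LF r k) :=
    IsLocalization.isAlgebraic _ (nonZeroDivisors _)
  exact (IsTranscendenceBasis.mvPolynomial (Fin 2 ⊕ Fin r) k).algebraMap_comp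

lemma alg_L (hp : 0 < p) (a : Fin 2) :
    Algebra.IsAlgebraic (Algebra.adjoin k (Set.range (tL p r k a))) (LF r k) := by
  set S := Algebra.adjoin k (Set.range (tL p r k a)) with hS
  have hmem : ∀ v, tL p r k a v ∈ S := fun v => Algebra.subset_adjoin ⟨v, rfl⟩
  have halg : ∀ z : LF r k, z ∈ S → IsAlgebraic S z := by
    intro z hz
    exact isAlgebraic_algebraMap (⟨z, hz⟩ : S)
  have hxa : IsAlgebraic S (algebraMap (PR r k) (LF r k) (X (Sum.inl a))) := by
    refine IsAlgebraic.of_pow hp ?_
    rw [← tL_0]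
    exact halg _ (hmem _)
  have hxo : IsAlgebraic S (algebraMap (PR r k) (LF r k) (X (Sum.inl (ot a)))) := by
    have hx := algebraMap_X_ne_zero r k (Sum.inl a)
    have h : algebraMap (PR r k) (LF r k) (X (Sum.inl (ot a))) = tL p r k a (Sum.inl 1) *
        algebraMap (PR r k) (LF r k) (X (Sum.inl a)) := by
      rw [tL_1, div_mul_cancel₀ _ hx]
    rw [h]
    exact (halg _ (hmem _)).mul hxa
  rw [(basisL r k).isAlgebraic_iff]
  rintro (c | j)
  · have hc : ∀ a c : Fin 2, c = a ∨ c = ot a := by decide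
    rcases hc a c with rfl | rfl
    · exact hxa
    · exact hxo
  · exact halg _ (by rw [Function.comp_apply, ← tL_r p r k a]; exact hmem _)

lemma tL_algebraicIndependent (hp : 0 < p) (a : Fin 2) :
    AlgebraicIndependent k (tL p r k a) := by
  have := alg_L p r k hp a
  refine (Algebra.IsAlgebraic.isTranscendenceBasis_of_lift_le_trdeg_of_finite k
    (tL p r k a) ?_).1
  have h := (basisL r k).lift_cardinalMk_eq_trdeg
  exact h.le

lemma aeval_tL_injective (hp : 0 < p) (a : Fin 2) :
    Function.Injective (aeval (tL p r k a) : PR r k →ₐ[k] LF r k) :=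
  tL_algebraicIndependent p r k hp a

/-! ### the chart rings -/

/-- The ring `R` inside the field of rational functions. -/
noncomputable def gL : coneRing p r k →+* LF r k :=
  (algebraMap (PR r k) (LF r k)).comp (coneRing p r k).val.toRingHom

lemma gL_apply (b : coneRing p r k) : gL p r k b = algebraMap (PR r k) (LF r k) (b : PR r k) := rfl

lemma gL_injective : Function.Injective (gL p r k) := by
  intro a b h
  apply Subtype.ext
  exact IsFractionRing.injective (PR r k) (LF r k) h

lemma gL_tp (a : Fin 2) : gL p r k (tp p r k a) =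
    algebraMap (PR r k) (LF r k) (X (Sum.inl a)) ^ p := by
  rw [gL_apply, coe_tp, map_pow]

lemma gL_tp_ne_zero (a : Fin 2) : gL p r k (tp p r k a) ≠ 0 := by
  rw [gL_tp]
  exact pow_ne_zero _ (algebraMap_X_ne_zero r k _)

/-- The ring of the chart `a` of the blowup. -/
abbrev ChartRing (a : Fin 2) : Type u :=
  Away (reesPiece (idealJ p r k)) (tElt (idealJ p r k) (tp p r k a) (tp_mem_J p r k a))

/-- The embedding of the chart ring in the field of rational functions. -/
noncomputable def psiL (a : Fin 2) : ChartRing p r k a →+* LF r k :=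
  psi (idealJ p r k) (gL p r k) (tp p r k a) (tp_mem_J p r k a) (gL_tp_ne_zero p r k a)

lemma psiL_injective (a : Fin 2) : Function.Injective (psiL p r k a) :=
  psi_injective _ _ _ _ _ (gL_injective p r k)

/-- The map from `R` to the chart ring. -/
noncomputable def toChart (a : Fin 2) : coneRing p r k →+* ChartRing p r k a :=
  chartMap (idealJ p r k) (tp p r k a) (tp_mem_J p r k a)

lemma psiL_toChart (a : Fin 2) (b : coneRing p r k) :
    psiL p r k a (toChart p r k a b) = gL p r k b :=
  psi_chartMap _ _ _ _ _ _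

/-- The `k`-algebra structure of the chart ring. -/
noncomputable instance chartAlgebra (a : Fin 2) : Algebra k (ChartRing p r k a) :=
  ((toChart p r k a).comp (algebraMap k (coneRing p r k))).toAlgebra

lemma chart_algebraMap (a : Fin 2) (c : k) :
    (algebraMap k (ChartRing p r k a) : k →+* ChartRing p r k a) c =
      toChart p r k a (algebraMap k (coneRing p r k) c) := rfl

variable (hp : 0 < p)

include hp in
lemma exists_coord (a : Fin 2) (v : Fin 2 ⊕ Fin r) :
    ∃ z : ChartRing p r k a, psiL p r k a z = tL p r k a v := by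
  obtain ⟨n, b, hb, h⟩ := tL_eq_div p r k hp a v
  refine ⟨frac (idealJ p r k) (tp p r k a) (tp_mem_J p r k a) n b hb, ?_⟩
  rw [psiL, psi_frac, h, gL_tp]
  rfl

/-- The coordinates of the chart. -/
noncomputable def tC (a : Fin 2) (v : Fin 2 ⊕ Fin r) : ChartRing p r k a :=
  (exists_coord p r k hp a v).choose

lemma psiL_tC (a : Fin 2) (v : Fin 2 ⊕ Fin r) :
    psiL p r k a (tC p r k hp a v) = tL p r k a v :=
  (exists_coord p r k hp a v).choose_spec

lemma psiL_aeval (a : Fin 2) (q : PR r k) :
    psiL p r k a (aeval (tC p r k hp a) q) = aeval (tL p r k a) q := by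
  have h : (psiL p r k a).comp (aeval (tC p r k hp a) : PR r k →ₐ[k] ChartRing p r k a).toRingHom =
      (aeval (tL p r k a) : PR r k →ₐ[k] LF r k).toRingHom := by
    apply MvPolynomial.ringHom_ext
    · intro c
      simp only [AlgHom.toRingHom_eq_coe, RingHom.coe_comp, RingHom.coe_coe, Function.comp_apply]
      rw [← MvPolynomial.algebraMap_eq, AlgHom.commutes, AlgHom.commutes, chart_algebraMap,
        psiL_toChart, gL_apply, IsScalarTower.algebraMap_apply k (PR r k) (LF r k)]
      rfl
    · intro v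
      simp [psiL_tC]
  exact congrArg (fun f => f q) h

lemma tC_bijective (a : Fin 2) :
    Function.Bijective (aeval (tC p r k hp a) : PR r k →ₐ[k] ChartRing p r k a) := by
  constructor
  · intro x y h
    apply aeval_tL_injective p r k hp a
    rw [← psiL_aeval p r k hp, ← psiL_aeval p r k hp, h]
  · intro z
    obtain ⟨n, b, hb, rfl⟩ := exists_frac _ _ _ z
    obtain ⟨q, hq⟩ := Jpow_div_mem p r k a n hb
    refine ⟨q, psiL_injective p r k a ?_⟩
    rw [psiL_aeval, psiL, psi_frac, gL_tp]
    exact hq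

lemma toChart_tp (a : Fin 2) : toChart p r k a (tp p r k a) = tC p r k hp a (Sum.inl 0) := by
  apply psiL_injective p r k a
  rw [psiL_toChart, psiL_tC, gL_tp, tL_0]

lemma toChart_yg (a : Fin 2) (j : Fin r) :
    toChart p r k a (yg p r k j) = tC p r k hp a (Sum.inr j) := by
  apply psiL_injective p r k a
  rw [psiL_toChart, psiL_tC]
  rfl

/-- `t ^ p = s ^ p (t / s) ^ p` in the chart ring -/
lemma toChart_ot (a : Fin 2) : toChart p r k a (tp p r k (ot a)) =
    tC p r k hp a (Sum.inl 0) * tC p r k hp a (Sum.inl 1) ^ p := by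
  apply psiL_injective p r k a
  have hx := algebraMap_X_ne_zero r k (Sum.inl a)
  have h : psiL p r k a (tC p r k hp a (Sum.inl 1) ^ p) =
    psiL p r k a (tC p r k hp a (Sum.inl 1)) ^ p :=
      map_pow (psiL p r k a) (tC p r k hp a (Sum.inl 1)) p
  rw [psiL_toChart, map_mul, h, psiL_tC, psiL_tC, gL_tp, tL_0, tL_1, div_pow,
    mul_div_cancel₀ _ (pow_ne_zero p hx)]

end Pool.Agent.W498.Lift
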