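import Pool.Agent.Helper165.Defs

/-!
# Definitions: lifting differential forms to log resolutions in positive characteristic

We reuse `regularForms`, `localRing`, `constants`, `differential` of
`Pool/Agent/Helper165/Defs.lean`.
-/

set_option autoImplicit false

open AlgebraicGeometry CategoryTheory Pool.Agent.Helper165

universe u

namespace Pool.Agent.W498.Lift

/-- Strong F-regularity of a domain `R` of characteristic `p` (for a ring `R` of finite type over a
perfect field): for every `c ≠ 0` there is `e > 0` such that the `R`-linear map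
`R → F^e_* R`, `1 ↦ F^e_* c`, splits. A splitting is an additive map `φ : R → R` with
`φ (a ^ (p ^ e) x) = a φ (x)` and `φ c = 1`. For `X = Spec R` this says that the pair `(X, 0)` is
globally F-regular. -/
def IsStronglyFRegular (p : ℕ) (R : Type u) [CommRing R] : Prop :=
  ∀ c : R, c ≠ 0 → ∃ e : ℕ, 0 < e ∧ ∃ φ : R →+ R,
    (∀ a x : R, φ (a ^ p ^ e * x) = a * φ x) ∧ φ c = 1

/-- The point `x` lies in the smooth locus of `π : X ⟶ S`. -/
def IsSmoothPoint {X S : Scheme.{u}} (π : X ⟶ S) (x : X) : Prop :=
  ∃ U : X.Opens, x ∈ U ∧ Smooth (U.ι ≫ π)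

/-- The exceptional locus of `f : Y ⟶ X`: the points of `Y` without an open neighbourhood on which
`f` is an open immersion. -/
def exceptionalLocus {Y X : Scheme.{u}} (f : Y ⟶ X) : Set Y :=
  {y | ¬ ∃ V : Y.Opens, y ∈ V ∧ IsOpenImmersion (V.ι ≫ f)}

/-- Affine space `𝔸^n` over `k`. -/
noncomputable def affineSpace (n : ℕ) (k : Type u) [Field k] : Scheme.{u} :=
  Spec (CommRingCat.of (MvPolynomial (Fin n) k))

/-- The structure morphism `𝔸^n ⟶ Spec k`. -/
noncomputable def affineSpaceStr (n : ℕ) (k : Type u) [Field k] :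
    affineSpace n k ⟶ Spec (CommRingCat.of k) :=
  Spec.map (CommRingCat.ofHom (algebraMap k (MvPolynomial (Fin n) k)))

/-- The closed subset `{∏_{i ∈ s} t_i = 0}` of the affine space with coordinates `t_i`. -/
def coordDivisor (n : ℕ) (k : Type u) [Field k] (s : Finset (Fin n)) : Set (affineSpace n k) :=
  {x : PrimeSpectrum (MvPolynomial (Fin n) k) | ∏ i ∈ s, MvPolynomial.X i ∈ x.asIdeal}

/-- The subset `E` of the `k`-scheme `Y` (with structure morphism `g`) is (the support of) a
divisor with simple normal crossings, or empty: around every point of `Y` there are étale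
coordinates `t = (t_1, …, t_n) : V ⟶ 𝔸^n_k`, defined on an open neighbourhood `V` of the point,
such that `E ∩ V = {∏_{i ∈ s} t_i = 0}` for a set `s` of indices. -/
def IsSNC {k : Type u} [Field k] {Y : Scheme.{u}} (n : ℕ) (g : Y ⟶ Spec (CommRingCat.of k))
    (E : Set Y) : Prop :=
  ∀ y : Y, ∃ (V : Y.Opens) (t : V.toScheme ⟶ affineSpace n k) (s : Finset (Fin n)),
    y ∈ V ∧ Etale t ∧ t ≫ affineSpaceStr n k = V.ι ≫ g ∧
      ∀ v : V, ((v : Y) ∈ E ↔ t v ∈ coordDivisor n k s)

/-- `f : Y ⟶ X` is a log resolution of `(X, 0)`, for an `n`-dimensional `k`-variety `X` with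
structure morphism `π`: `Y` is smooth over `k` of dimension `n`, `f` is proper and birational, and
the exceptional locus of `f` is a divisor with simple normal crossings. -/
structure IsLogResolution {k : Type u} [Field k] {X Y : Scheme.{u}} (n : ℕ)
    (f : Y ⟶ X) (π : X ⟶ Spec (CommRingCat.of k)) : Prop where
  smooth : SmoothOfRelativeDimension n (f ≫ π)
  proper : IsProper f
  birational : ∃ U : X.Opens, Dense (U : Set X) ∧ Dense ((f ⁻¹ᵁ U : Y.Opens) : Set Y) ∧
    IsIso (f ∣_ U)
  snc : IsSNC n (f ≫ π) (exceptionalLocus f)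

/-- For a field `K` with a map `d : K → M` (in practice the universal derivation
`K → Ω_{K/k}`) and two families `S`, `T` of subsets of `K` (in practice of local rings): every
rational `q`-form which is regular on all members of `S` is regular on all members of `T`.
Here `ω` is regular on `O` if it is a sum of forms `g dv_1 ∧ ⋯ ∧ dv_q` with `g, v_1, …, v_q`
in `O`. -/
def FormsExtend {K M : Type*} [Field K] [AddCommGroup M] [Module K M] (d : K → M) (q : ℕ)
    (S T : Set (Set K)) : Prop :=
  ∀ ω : ⋀[K]^q M, (∀ O ∈ S, ω ∈ regularForms d q O) → ∀ O ∈ T, ω ∈ regularForms d q O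

/-- Regular `q`-forms on `X` lift to `Y`, for a birational morphism `f : Y ⟶ X` of integral
`k`-schemes (`π` the structure morphism of `X`): for every open `U ⊆ X`, every rational `q`-form
`ω` (an element of `⋀^q Ω_{K/k}`, `K = k(Y) = k(X)`) which is regular at all smooth points of `U`
is regular at all points of `f⁻¹(U)`. -/
def FormsLift {k : Type u} [Field k] {X Y : Scheme.{u}} [IsIntegral Y] (q : ℕ)
    (f : Y ⟶ X) (π : X ⟶ Spec (CommRingCat.of k)) : Prop :=
  letI : Algebra k Y.functionField := (constants (f ≫ π)).toAlgebra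
  ∀ U : X.Opens, FormsExtend (differential k Y.functionField) q
    {O | ∃ x ∈ U, IsSmoothPoint π x ∧ O = localRing f x}
    {O | ∃ y : Y, f y ∈ U ∧ O = localRing (𝟙 Y) y}

end Pool.Agent.W498.Lift
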