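import Pool.Agent.Helper165.Crep

/-!
Algebra of logarithmic forms in characteristic `p`.
-/

set_option autoImplicit false

open KaehlerDifferential AlgebraicGeometry CategoryTheory TopologicalSpace
open Pool.Agent.Helper165

universe u

namespace Pool.Agent.W498.Lift

section wedge

variable {K M : Type*} [Field K] [AddCommGroup M] [Module K M]

/-- The map `η ↦ m ∧ η`. -/
noncomputable def wedgeL (n : ℕ) (m : M) : ⋀[K]^n M →ₗ[K] ⋀[K]^(n + 1) M :=
  exteriorPower.alternatingMapLinearEquiv ((exteriorPower.ιMulti K (M := M) (n + 1)).curryLeft m)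

lemma wedgeL_ιMulti (n : ℕ) (m : M) (v : Fin n → M) :
    wedgeL n m (exteriorPower.ιMulti K n v) =
      exteriorPower.ιMulti K (n + 1) (Matrix.vecCons m v) := by
  rw [wedgeL, exteriorPower.alternatingMapLinearEquiv_apply_ιMulti]
  rfl

lemma map_vecCons {α β : Type*} (d : α → β) {n : ℕ} (w : α) (v : Fin n → α) :
    (fun i => d (Matrix.vecCons w v i)) = Matrix.vecCons (d w) (fun i => d (v i)) := by
  funext i
  refine Fin.cases ?_ (fun j => ?_) i
  · rfl
  · rfl

lemma wedge_mem (d : K → M) (n : ℕ) (O : Set K) (w : K) (hw : w ∈ O) (η : ⋀[K]^n M)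
    (hη : η ∈ regularForms d n O) : wedgeL n (d w) η ∈ regularForms d (n + 1) O := by
  unfold regularForms at hη
  induction hη using AddSubgroup.closure_induction with
  | mem x hx =>
    obtain ⟨g, hg, v, hv, rfl⟩ := hx
    apply AddSubgroup.subset_closure
    refine ⟨g, hg, Matrix.vecCons w v, ?_, ?_⟩
    · intro i
      refine Fin.cases ?_ (fun j => ?_) i
      · exact hw
      · exact hv j
    · rw [map_smul, wedgeL_ιMulti, map_vecCons]
  | zero => rw [map_zero]; exact AddSubgroup.zero_mem _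
  | add x y _ _ hx hy => rw [map_add]; exact AddSubgroup.add_mem _ hx hy
  | neg x _ hx => rw [map_neg]; exact AddSubgroup.neg_mem _ hx

lemma ιMulti_smul (n : ℕ) (c : K) (m : M) (v : Fin n → M) :
    exteriorPower.ιMulti K (n + 1) (Matrix.vecCons (c • m) v) =
      c • exteriorPower.ιMulti K (n + 1) (Matrix.vecCons m v) := by
  have h1 : exteriorPower.ιMulti K (n + 1) (Matrix.vecCons (c • m) v) =
    (exteriorPower.ιMulti K (M := M) (n + 1)).curryLeft (c • m) v := rfl
  have h2 : exteriorPower.ιMulti K (n + 1) (Matrix.vecCons m v) =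
    (exteriorPower.ιMulti K (M := M) (n + 1)).curryLeft m v := rfl
  rw [h1, h2, map_smul]
  rfl

lemma eq_of_smul {V : Type*} [AddCommGroup V] [Module K V] (a b : K) (v : V) (hv : v ≠ 0)
    (h : a • v = b • v) : a = b := by
  rw [← sub_eq_zero, ← sub_smul, smul_eq_zero] at h
  rcases h with h | h
  · exact sub_eq_zero.mp h
  · exact absurd h hv

end wedge

section forms

variable {k K : Type*} [Field k] [Field K] [Algebra k K]

/-- The form `u⁻¹ du ∧ dy_1 ∧ ⋯ ∧ dy_r`. -/
noncomputable def omega (k : Type*) {K : Type*} [Field k] [Field K] [Algebra k K] {r : ℕ} (u : K)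
    (y : Fin r → K) : ⋀[K]^(r + 1) (Ω[K⁄k]) :=
  u⁻¹ • exteriorPower.ιMulti K (r + 1) (Matrix.vecCons (D k K u) (fun j => D k K (y j)))

/-- The form is regular where `u` is invertible. -/
lemma omega_mem {r : ℕ} (u : K) (y : Fin r → K) (O : Set K) (hu' : u⁻¹ ∈ O) (hu : u ∈ O)
    (hy : ∀ j, y j ∈ O) : omega k u y ∈ regularForms (differential k K) (r + 1) O := by
  apply AddSubgroup.subset_closure
  refine ⟨u⁻¹, hu', Matrix.vecCons u y, ?_, ?_⟩
  · intro i
    refine Fin.cases ?_ (fun j => ?_) i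
    · exact hu
    · exact hy j
  · rw [map_vecCons]
    rfl

/-- `d log (u w ^ p) = d log u` in characteristic `p`. -/
lemma omega_mul_pow {r : ℕ} (p : ℕ) [CharP K p] (u w : K) (hw : w ≠ 0)
    (y : Fin r → K) : omega k (u * w ^ p) y = omega k u y := by
  have h1 : D k K (w ^ p) = 0 := by
    rw [Derivation.leibniz_pow, ← Nat.cast_smul_eq_nsmul K, CharP.cast_eq_zero, zero_smul]
  have h2 : D k K (u * w ^ p) = w ^ p • D k K u := by
    rw [Derivation.leibniz, h1, smul_zero, zero_add]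
  unfold omega
  rw [h2, ιMulti_smul, smul_smul]
  congr 1
  have hwp : w ^ p ≠ 0 := pow_ne_zero p hw
  rw [mul_inv, mul_assoc, inv_mul_cancel₀ hwp, mul_one]

/-- The form is not regular where `u` is not invertible. -/
lemma omega_notMem {r : ℕ} (O : Subring K) (w u : K) (y : Fin r → K)
    (hind : AlgebraicIndependent k (Matrix.vecCons w (Matrix.vecCons u y)))
    (hfrac : ∀ φ : K, ∃ a ∈ Algebra.adjoin k (Set.range (Matrix.vecCons w (Matrix.vecCons u y))),
      ∃ s ∈ Algebra.adjoin k (Set.range (Matrix.vecCons w (Matrix.vecCons u y))),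
      s ≠ 0 ∧ φ = a / s)
    (hk : ∀ c : k, algebraMap k K c ∈ O)
    (ht : ∀ i, Matrix.vecCons w (Matrix.vecCons u y) i ∈ O)
    (hO : ∀ φ ∈ O, ∃ a ∈ Algebra.adjoin k (Set.range (Matrix.vecCons w (Matrix.vecCons u y))),
      ∃ s ∈ Algebra.adjoin k (Set.range (Matrix.vecCons w (Matrix.vecCons u y))),
      s ≠ 0 ∧ s⁻¹ ∈ O ∧ φ = a / s) (hu : u⁻¹ ∉ O) :
    omega k u y ∉ regularForms (differential k K) (r + 1) (O : Set K) := by
  intro h
  have hw : w ∈ (O : Set K) := ht 0
  have h1 := wedge_mem (differential k K) (r + 1) (O : Set K) w hw _ h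
  obtain ⟨hne, hgen⟩ := isGenerator_of (n := r + 1 + 1) O _ hind hfrac hk ht hO
  rw [hgen] at h1
  obtain ⟨g, hg, hg2⟩ := h1
  have e1 : wedgeL (r + 1) (differential k K w) (omega k u y) =
      u⁻¹ • exteriorPower.ιMulti K (r + 1 + 1)
        (fun i => D k K (Matrix.vecCons w (Matrix.vecCons u y) i)) := by
    rw [omega, map_smul, wedgeL_ιMulti, map_vecCons (D k K), map_vecCons (D k K)]
    rfl
  have h3 := eq_of_smul u⁻¹ g _ hne (e1.symm.trans hg2)
  rw [h3] at hu
  exact hu hg

end forms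

section geometry

variable {Y : Scheme.{u}} [IsIntegral Y] {R : Type u} [CommRing R] [Nontrivial R]
  (j : Spec (CommRingCat.of R) ⟶ Y) [IsOpenImmersion j]

omit [Nontrivial R] in
lemma locMap_id_injective (y : Y) (h : (𝟙 Y : Y ⟶ Y) (genericPoint Y) ⤳ y) :
    Function.Injective (locMap (𝟙 Y) y h).hom := by
  have h1 : (locMap (𝟙 Y) y h) = Y.presheaf.stalkSpecializes h := by
    unfold locMap
    rw [Scheme.Hom.stalkMap_id]
    exact Category.comp_id _
  rw [h1]
  exact IsFractionRing.injective (Y.presheaf.stalk y) Y.functionField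

/-- An element of the chart ring whose inverse is in the local ring of the point `z` does not
vanish at `z`. -/
lemma notMem_of_inv_mem (z : Spec (CommRingCat.of R)) (s : R)
    (h : (𝟙 Y : Y ⟶ Y) (genericPoint Y) ⤳ j z) (hs0 : gammaMap j s ≠ 0)
    (hs : (gammaMap j s)⁻¹ ∈ localSubring (𝟙 Y) (j z) h) : s ∉ z.asIdeal := by
  obtain ⟨w, hw⟩ := hs
  have hy : j z ∈ (j ''ᵁ ⊤ : Y.Opens) := ⟨z, trivial, rfl⟩
  have h1 : (locMap (𝟙 Y) (j z) h).hom (Y.presheaf.germ (j ''ᵁ ⊤) (j z) hy (thetaMap j s)) =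
      gammaMap j s := locMap_germ (𝟙 Y) (j z) h (j ''ᵁ ⊤) hy _ _
  have h2 : Y.presheaf.germ (j ''ᵁ ⊤) (j z) hy (thetaMap j s) * w = 1 := by
    apply locMap_id_injective (j z) h
    rw [map_mul, map_one, h1, hw, mul_inv_cancel₀ hs0]
  have h3 : IsUnit (Y.presheaf.germ (j ''ᵁ ⊤) (j z) hy (thetaMap j s)) :=
    IsUnit.of_mul_eq_one _ h2
  have h4 : j z ∈ Y.basicOpen (thetaMap j s) := (Y.mem_basicOpen _ _ hy).2 h3
  have h5 : Y.basicOpen (thetaMap j s) =
      j ''ᵁ (Spec (CommRingCat.of R)).basicOpen ((Scheme.ΓSpecIso (CommRingCat.of R)).inv s) :=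
    (Scheme.image_basicOpen j _).symm
  rw [h5, basicOpen_eq_of_affine] at h4
  obtain ⟨z', hz', hz2⟩ := h4
  have h6 : z' = z := (Scheme.Hom.isOpenEmbedding j).injective hz2
  subst h6
  exact hz'

end geometry

end Pool.Agent.W498.Lift
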