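import Pool.Agent.W498.Lift.Geo
import Pool.Agent.W498.Lift.FormAlg

/-!
The form `u⁻¹ du ∧ dy_1 ∧ ⋯ ∧ dy_r` with `u = s ^ p` does not lift to the resolution.
-/

set_option autoImplicit false

open AlgebraicGeometry CategoryTheory TopologicalSpace
open Pool.Agent.Helper165

universe u

namespace Pool.Agent.W498.Lift

variable (p r : ℕ) (k : Type u) [Field k]

/-- The reindexing with `0 ↦ t / s`, `1 ↦ s ^ p`. -/
def eW : Fin (r + 2) ≃ Fin 2 ⊕ Fin r where
  toFun := Matrix.vecCons (Sum.inl 1) (Matrix.vecCons (Sum.inl 0) Sum.inr)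
  invFun := Sum.elim ![1, 0] (fun j => j.succ.succ)
  left_inv i := by
    refine Fin.cases ?_ (fun j => Fin.cases ?_ (fun l => ?_) j) i
    · rfl
    · rfl
    · rfl
  right_inv v := by
    rcases v with c | j
    · fin_cases c
      · rfl
      · rfl
    · rfl

variable (hp : 0 < p)

/-- The coordinates of the chart in the order `t / s`, `s ^ p`, `y_j`. -/
noncomputable def tW (m : Fin (r + 2)) : ChartRing p r k 0 := tC p r k hp 0 (eW r m)

lemma tW_bijective : Function.Bijective
    (MvPolynomial.aeval (tW p r k hp) :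
      MvPolynomial (Fin (r + 2)) k →ₐ[k] ChartRing p r k 0) := by
  have h : (MvPolynomial.aeval (tW p r k hp) :
      MvPolynomial (Fin (r + 2)) k →ₐ[k] ChartRing p r k 0) =
      (MvPolynomial.aeval (tC p r k hp 0) : PR r k →ₐ[k] ChartRing p r k 0).comp
        (MvPolynomial.renameEquiv k (eW r)).toAlgHom := by
    apply MvPolynomial.algHom_ext
    intro m
    simp [tW]
  rw [h, AlgHom.coe_comp]
  exact (tC_bijective p r k hp 0).comp (MvPolynomial.renameEquiv k (eW r)).bijective

lemma chartRing_nontrivial (a : Fin 2) : Nontrivial (ChartRing p r k a) :=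
  (psiL p r k a).domain_nontrivial

lemma toChart_injective (a : Fin 2) : Function.Injective (toChart p r k a) := by
  intro b c h
  have h3 := congrArg (psiL p r k a) h
  rw [psiL_toChart, psiL_toChart] at h3
  exact gL_injective p r k h3

/-- There is a point of the exceptional divisor. -/
lemma exists_point : ∃ z : Spec (CommRingCat.of (ChartRing p r k 0)),
    tC p r k hp 0 (Sum.inl 0) ∈ z.asIdeal := by
  have h1 : tC p r k hp 0 (Sum.inl 0) ∈ nonunits (ChartRing p r k 0) := by
    intro h
    let e := AlgEquiv.ofBijective (MvPolynomial.aeval (tC p r k hp 0) :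
      PR r k →ₐ[k] ChartRing p r k 0) (tC_bijective p r k hp 0)
    have h2 : IsUnit (e (MvPolynomial.X (Sum.inl 0))) := by
      have : e (MvPolynomial.X (Sum.inl 0)) = tC p r k hp 0 (Sum.inl 0) :=
        MvPolynomial.aeval_X _ _
      rw [this]
      exact h
    have h3 : IsUnit (e.symm (e (MvPolynomial.X (Sum.inl 0)))) := h2.map e.symm
    rw [AlgEquiv.symm_apply_apply] at h3
    have h4 := h3.map (MvPolynomial.constantCoeff (R := k) (σ := Fin 2 ⊕ Fin r))
    rw [MvPolynomial.constantCoeff_X] at h4
    exact not_isUnit_zero h4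
  obtain ⟨m, hm, hm2⟩ := exists_max_ideal_of_mem_nonunits h1
  exact ⟨(⟨m, hm.isPrime⟩ : PrimeSpectrum (ChartRing p r k 0)), hm2⟩

include hp in
theorem not_formsLift [CharP k p] (hp2 : 2 ≤ p) :
    ¬ FormsLift (r + 1) (resF p r k) (str p r k) := by
  intro hlift
  let algK : Algebra k (resY p r k).functionField :=
    (constants (resF p r k ≫ str p r k)).toAlgebra
  have halg : ∀ c, (algebraMap k (resY p r k).functionField : k →+* (resY p r k).functionField) c =
      gMap (resF p r k) (algebraMap k (coneRing p r k) c) := constants_gMap (resF p r k)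
  have hnt : ∀ a, Nontrivial (ChartRing p r k a) := chartRing_nontrivial p r k
  have hγ : ∀ a b, gammaMap (chart p r k a) (toChart p r k a b) = gMap (resF p r k) b :=
    fun a b => gammaMap_comp (chart p r k a) (resF p r k) (toChart p r k a) (chart_resF p r k a) b
  have hg : Function.Injective (gMap (resF p r k)) := by
    intro a b h
    rw [← hγ 0, ← hγ 0] at h
    exact toChart_injective p r k 0 (gammaMap_injective (chart p r k 0) h)
  have hchar : CharP (resY p r k).functionField p :=
    charP_of_injective_algebraMap (algebraMap k (resY p r k).functionField).injective p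
  let γ : ChartRing p r k 0 →ₐ[k] (resY p r k).functionField :=
    { gammaMap (chart p r k 0) with
      commutes' := fun c => by
        change gammaMap (chart p r k 0) (algebraMap k (ChartRing p r k 0) c) = _
        rw [chart_algebraMap, hγ, halg] }
  have hγγ : ∀ s, γ s = gammaMap (chart p r k 0) s := fun s => rfl
  have hγinj : Function.Injective γ := gammaMap_injective (chart p r k 0)
  have hind : AlgebraicIndependent k (fun m => γ (tW p r k hp m)) :=
    algInd_of (tW p r k hp) (tW_bijective p r k hp).1 γ hγinj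
  have hadj : ∀ s, γ s ∈ Algebra.adjoin k (Set.range (fun m => γ (tW p r k hp m))) := fun s =>
    mem_adjoin_of (tW p r k hp) (tW_bijective p r k hp).2 γ s
  -- the elements
  have heq : (fun m => γ (tW p r k hp m)) =
      Matrix.vecCons (γ (tC p r k hp 0 (Sum.inl 1))) (Matrix.vecCons
        (gMap (resF p r k) (tp p r k 0)) (fun j => gMap (resF p r k) (yg p r k j))) := by
    have e1 : tC p r k hp 0 (Sum.inl 0) = toChart p r k 0 (tp p r k 0) :=
      (toChart_tp p r k hp 0).symm
    funext m
    refine Fin.cases ?_ (fun j => Fin.cases ?_ (fun l => ?_) j) m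
    · rfl
    · change γ (tC p r k hp 0 (Sum.inl 0)) = gMap (resF p r k) (tp p r k 0)
      rw [e1, hγγ, hγ]
    · change γ (tC p r k hp 0 (Sum.inr l)) = gMap (resF p r k) (yg p r k l)
      rw [← toChart_yg, hγγ, hγ]
  have hu1 : gMap (resF p r k) (tp p r k 1) = gMap (resF p r k) (tp p r k 0) *
      γ (tC p r k hp 0 (Sum.inl 1)) ^ p := by
    have hpow : γ (tC p r k hp 0 (Sum.inl 1) ^ p) = γ (tC p r k hp 0 (Sum.inl 1)) ^ p :=
      map_pow γ (tC p r k hp 0 (Sum.inl 1)) p
    have hmul : γ (tC p r k hp 0 (Sum.inl 0) * tC p r k hp 0 (Sum.inl 1) ^ p) =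
        γ (tC p r k hp 0 (Sum.inl 0)) * γ (tC p r k hp 0 (Sum.inl 1) ^ p) := map_mul γ _ _
    rw [← hγ 0, show tp p r k 1 = tp p r k (ot 0) from rfl, toChart_ot p r k hp, ← hγγ, hmul,
      hpow, ← toChart_tp p r k hp, hγγ (toChart p r k 0 (tp p r k 0)), hγ]
  have hw0 : γ (tC p r k hp 0 (Sum.inl 1)) ≠ 0 := by
    intro h0
    rw [h0, zero_pow hp.ne', mul_zero] at hu1
    exact tp_ne_zero p r k 1 ((map_eq_zero_iff _ hg).1 hu1)
  obtain ⟨z, hz⟩ := exists_point p r k hp
  have hlift2 := hlift ⊤ (omega k (gMap (resF p r k) (tp p r k 0))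
    (fun j => gMap (resF p r k) (yg p r k j))) ?_
    (localRing (𝟙 (resY p r k)) (chart p r k 0 z)) ⟨chart p r k 0 z, trivial, rfl⟩
  · -- the form is not regular at the point of the exceptional divisor
    have h : (𝟙 (resY p r k) : resY p r k ⟶ resY p r k) (genericPoint (resY p r k)) ⤳
        chart p r k 0 z := generic_specializes _
    have hi : chart p r k 0 z ∈ (chart p r k 0 ''ᵁ ⊤ : (resY p r k).Opens) := ⟨z, trivial, rfl⟩
    rw [← localSubring_coe (𝟙 (resY p r k)) (chart p r k 0 z) h] at hlift2
    refine omega_notMem (k := k) (localSubring (𝟙 (resY p r k)) (chart p r k 0 z) h)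
      (γ (tC p r k hp 0 (Sum.inl 1))) (gMap (resF p r k) (tp p r k 0))
      (fun j => gMap (resF p r k) (yg p r k j)) ?_ ?_ ?_ ?_ ?_ ?_ hlift2
    · rw [← heq]
      exact hind
    · rw [← heq]
      intro ψ
      obtain ⟨a, s, h1, h2⟩ := exists_frac_generic (chart p r k 0) ψ
      exact ⟨γ a, hadj a, γ s, hadj s, h1, h2⟩
    · intro c
      rw [← γ.commutes]
      exact gammaMap_mem (chart p r k 0) _ hi h _
    · rw [← heq]
      intro m
      exact gammaMap_mem (chart p r k 0) _ hi h _
    · rw [← heq]
      intro ψ hψ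
      obtain ⟨a, s, h1, h2, h3⟩ := exists_frac_chart (chart p r k 0) _ hi h ψ hψ
      exact ⟨γ a, hadj a, γ s, hadj s, h1, h2, h3⟩
    · intro hcon
      rw [← hγ 0] at hcon
      refine notMem_of_inv_mem (chart p r k 0) z (toChart p r k 0 (tp p r k 0)) h ?_ hcon ?_
      · rw [hγ]
        exact fun h0 => tp_ne_zero p r k 0 ((map_eq_zero_iff _ hg).1 h0)
      · rw [toChart_tp p r k hp]
        exact hz
  · -- the form is regular at the smooth points
    rintro O ⟨x, -, hx, rfl⟩
    obtain ⟨a, ha⟩ := exists_opD_of_smooth p r k hp2 x hx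
    have h := generic_resF p r k x
    rw [← localSubring_coe (resF p r k) x h]
    have hreg : ∀ b : Fin 2, x ∈ opD p r k b → omega k (gMap (resF p r k) (tp p r k b))
        (fun j => gMap (resF p r k) (yg p r k j)) ∈ regularForms (differential k _) (r + 1)
          (localSubring (resF p r k) x h : Set (resY p r k).functionField) := by
      intro b hb
      exact omega_mem _ _ _ (inv_gMap_mem (resF p r k) x h _ hb) (gMap_mem (resF p r k) x h _)
        (fun j => gMap_mem (resF p r k) x h _)
    fin_cases a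
    · exact hreg 0 ha
    · have h1 := hreg 1 ha
      rw [hu1, omega_mul_pow p _ _ hw0] at h1
      exact h1

end Pool.Agent.W498.Lift
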