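import Pool.Agent.W498.Lift.NonSmooth
import Pool.Agent.W498.Lift.Defs

/-!
`Spec R` is not smooth at the points of the vertex `V(s^p, t^p)`.
-/

set_option autoImplicit false

open MvPolynomial AlgebraicGeometry CategoryTheory

universe u

namespace Pool.Agent.W498.Lift

variable (p r : ℕ) (k : Type u) [Field k]

lemma rho_coe (a : coneRing p r k) : rho p r k (a : PR r k) = a := by
  have h := rho_mul p r k a 1
  rw [mul_one, rho_one, mul_one] at h
  exact h

lemma coe_rho_monomial {m : (Fin 2 ⊕ Fin r) →₀ ℕ} (hm : p ∣ dg m) (c : k) :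
    (rho p r k (monomial m c) : PR r k) = monomial m c :=
  congrArg Subtype.val (rho_coe p r k ⟨monomial m c, monomial_mem_coneRing p r k hm c⟩)

lemma rho_monomial_pow {m : (Fin 2 ⊕ Fin r) →₀ ℕ} (hm : p ∣ dg m) (c : k) :
    rho p r k (monomial m c) ^ p = tp p r k 0 ^ m (Sum.inl 0) * tp p r k 1 ^ m (Sum.inl 1) *
      (algebraMap k (coneRing p r k) c * ∏ j : Fin r, yg p r k j ^ m (Sum.inr j)) ^ p := by
  apply Subtype.ext
  have h1 : (monomial m c : PR r k) = C c * ((X (Sum.inl 0) ^ m (Sum.inl 0) *
      X (Sum.inl 1) ^ m (Sum.inl 1)) * ∏ j : Fin r, X (Sum.inr j) ^ m (Sum.inr j)) := by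
    rw [monomial_eq, Finsupp.prod_fintype _ _ (by intro i; exact pow_zero _),
      Fintype.prod_sum_type, Fin.prod_univ_two]
  have h2 : ((∏ j : Fin r, yg p r k j ^ m (Sum.inr j) : coneRing p r k) : PR r k) =
      ∏ j : Fin r, X (Sum.inr j) ^ m (Sum.inr j) := by
    have := map_prod (coneRing p r k).val (fun j => yg p r k j ^ m (Sum.inr j)) Finset.univ
    exact this
  have h3 : ((algebraMap k (coneRing p r k) c : coneRing p r k) : PR r k) = C c := rfl
  rw [Subalgebra.coe_pow, coe_rho_monomial p r k hm, Subalgebra.coe_mul, Subalgebra.coe_mul,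
    Subalgebra.coe_pow, Subalgebra.coe_pow, Subalgebra.coe_pow, Subalgebra.coe_mul, h2, h3, h1,
    coe_tp, coe_tp]
  simp only [mul_pow, ← pow_mul]
  ring

lemma mem_of_coeff_Psi (P : Ideal (coneRing p r k)) [P.IsPrime] (h0 : tp p r k 0 ∈ P)
    (h1 : tp p r k 1 ∈ P) (h : coneRing p r k) (hh : coeff 0 (Psi r k h) = 0) : h ∈ P := by
  classical
  -- reduction modulo `(s, t)`
  have key : ∀ f : PR r k, f - rename Sum.inr (coeff 0 (Psi r k f)) ∈
      Ideal.span (X '' (Set.range (Sum.inl : Fin 2 → Fin 2 ⊕ Fin r)) : Set (PR r k)) := by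
    intro f
    induction f using MvPolynomial.induction_on with
    | C a =>
      have : Psi r k (C a) = C (C a) := by rw [Psi, aeval_C]; rfl
      rw [this, coeff_zero_C, rename_C, sub_self]
      exact Ideal.zero_mem _
    | add f g hf hg =>
      rw [map_add, coeff_add, map_add, add_sub_add_comm]
      exact Ideal.add_mem _ hf hg
    | mul_X f v hf =>
      have e1 : coeff 0 (Psi r k (f * X v)) = coeff 0 (Psi r k f) * coeff 0 (Psi r k (X v)) := by
        rw [map_mul]
        exact map_mul constantCoeff _ _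
      rw [e1]
      rcases v with a | j
      · rw [Psi_s]
        have e2 : coeff 0 (X a : MvPolynomial (Fin 2) (AR r k)) = 0 := constantCoeff_X (AR r k) a
        rw [e2, mul_zero, map_zero, sub_zero]
        exact Ideal.mul_mem_left _ _ (Ideal.subset_span ⟨_, ⟨a, rfl⟩, rfl⟩)
      · rw [Psi_y, coeff_zero_C, map_mul, rename_X, ← sub_mul]
        exact Ideal.mul_mem_right _ _ hf
  have h2 := key h
  rw [hh, map_zero, sub_zero, mem_ideal_span_X_image] at h2
  have h3 : h = ∑ m ∈ (h : PR r k).support, rho p r k (monomial m (coeff m (h : PR r k))) := by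
    rw [← map_sum, ← (h : PR r k).as_sum, rho_coe]
  rw [h3]
  refine Ideal.sum_mem _ fun m hm => ?_
  have hdm : p ∣ dg m := h.2 m (mem_support_iff.mp hm)
  have hmem : rho p r k (monomial m (coeff m (h : PR r k))) ^ p ∈ P := by
    rw [rho_monomial_pow p r k hdm]
    refine Ideal.mul_mem_right _ _ ?_
    obtain ⟨i, ⟨a, rfl⟩, hi⟩ := h2 m hm
    fin_cases a
    · exact Ideal.mul_mem_right _ _ (Ideal.pow_mem_of_mem _ h0 _ (Nat.pos_of_ne_zero hi))
    · exact Ideal.mul_mem_left _ _ (Ideal.pow_mem_of_mem _ h1 _ (Nat.pos_of_ne_zero hi))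
  exact Ideal.IsPrime.mem_of_pow_mem inferInstance _ hmem

/-- the structure morphism of `Spec R` -/
noncomputable def str : Spec (CommRingCat.of (coneRing p r k)) ⟶ Spec (CommRingCat.of k) :=
  Spec.map (CommRingCat.ofHom (algebraMap k (coneRing p r k)))

theorem not_isSmoothPoint (hp : 2 ≤ p) (x : Spec (CommRingCat.of (coneRing p r k)))
    (h0 : tp p r k 0 ∈ x.asIdeal) (h1 : tp p r k 1 ∈ x.asIdeal) :
    ¬ IsSmoothPoint (str p r k) x := by
  rintro ⟨U, hxU, hU⟩
  obtain ⟨_, ⟨h, rfl⟩, hxh, hhU⟩ :=
    PrimeSpectrum.isTopologicalBasis_basic_opens.exists_subset_of_mem_open hxU U.isOpen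
  have hh : coeff 0 (Psi r k h) ≠ 0 := by
    intro hh
    have hP : x.asIdeal.IsPrime := PrimeSpectrum.isPrime x
    exact hxh (mem_of_coeff_Psi p r k x.asIdeal h0 h1 h hh)
  apply not_formallySmooth p r k hp h hh
  let j : Spec (CommRingCat.of (Localization.Away h)) ⟶ Spec (CommRingCat.of (coneRing p r k)) :=
    Spec.map (CommRingCat.ofHom (algebraMap (coneRing p r k) (Localization.Away h)))
  have hj : IsOpenImmersion j := inferInstance
  have hjr : Set.range j ⊆ Set.range U.ι := by
    rw [Scheme.Opens.range_ι]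
    have hr : (Set.range j : Set (PrimeSpectrum (coneRing p r k))) =
        ((PrimeSpectrum.basicOpen h : TopologicalSpace.Opens (PrimeSpectrum (coneRing p r k))) :
          Set (PrimeSpectrum (coneRing p r k))) :=
      PrimeSpectrum.localization_away_comap_range (Localization.Away h) h
    exact hr.subset.trans hhU
  let g := IsOpenImmersion.lift U.ι j hjr
  have hg : g ≫ U.ι = j := IsOpenImmersion.lift_fac _ _ _
  have hgo : IsOpenImmersion g := by
    have : IsOpenImmersion (g ≫ U.ι) := by rw [hg]; exact hj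
    exact IsOpenImmersion.of_comp g U.ι
  have hs : Smooth (j ≫ str p r k) := by
    rw [← hg, Category.assoc]
    infer_instance
  have hs2 : Smooth (Spec.map (CommRingCat.ofHom (algebraMap k (Localization.Away h)))) := by
    have : Spec.map (CommRingCat.ofHom (algebraMap k (Localization.Away h))) = j ≫ str p r k := by
      rw [IsScalarTower.algebraMap_eq k (coneRing p r k) (Localization.Away h),
        CommRingCat.ofHom_comp, Spec.map_comp]
      rfl
    rw [this]
    exact hs
  rw [HasRingHomProperty.Spec_iff (P := @Smooth)] at hs2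
  have hs3 : (algebraMap k (Localization.Away h)).Smooth := hs2
  have := hs3.formallySmooth
  rwa [RingHom.formallySmooth_algebraMap] at this

end Pool.Agent.W498.Lift
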