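import Pool.Agent.W498.Lift.Chart
import Pool.Agent.W498.Lift.NonSmoothPoint

/-!
The blow-up of the vertex is a log resolution.
-/

set_option autoImplicit false

open HomogeneousLocalization AlgebraicGeometry CategoryTheory TopologicalSpace
open Pool.Agent.Helper165

universe u

namespace Pool.Agent.W498.Lift

variable (p r : ℕ) (k : Type u) [Field k]

/-- The variety `X`. -/
noncomputable abbrev XS : Scheme.{u} := Spec (CommRingCat.of (coneRing p r k))

/-- The resolution: the blow-up of the vertex. -/
noncomputable def resY : Scheme.{u} := blow (idealJ p r k)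

/-- The resolution morphism. -/
noncomputable def resF : resY p r k ⟶ XS p r k := blowMap (idealJ p r k)

/-- The `a`-th chart of the resolution. -/
noncomputable def chart (a : Fin 2) : Spec (CommRingCat.of (ChartRing p r k a)) ⟶ resY p r k :=
  blowChart (idealJ p r k) (tp p r k a) (tp_mem_J p r k a)

instance (a : Fin 2) : IsOpenImmersion (chart p r k a) :=
  inferInstanceAs (IsOpenImmersion (blowChart (idealJ p r k) (tp p r k a) (tp_mem_J p r k a)))

lemma chart_opensRange (a : Fin 2) : (chart p r k a).opensRange =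
    (Proj.basicOpen (reesPiece (idealJ p r k)) (tElt (idealJ p r k) (tp p r k a)
      (tp_mem_J p r k a)) : (Proj (reesPiece (idealJ p r k))).Opens) :=
  blowChart_opensRange _ _ _

lemma chart_resF (a : Fin 2) :
    chart p r k a ≫ resF p r k = Spec.map (CommRingCat.ofHom (toChart p r k a)) :=
  blowChart_blowMap _ _ _

lemma chart_resF_structure (a : Fin 2) :
    chart p r k a ≫ resF p r k ≫ str p r k =
      Spec.map (CommRingCat.ofHom (algebraMap k (ChartRing p r k a))) := by
  rw [← Category.assoc, chart_resF]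
  unfold str
  exact (Spec.map_comp _ _).symm

lemma tElt_pow (i j : ℕ) (h : j + i = p) :
    tElt (idealJ p r k) (xg p r k i j h) (xg_mem_J p r k i j h) ^ p =
      tElt (idealJ p r k) (tp p r k 0) (tp_mem_J p r k 0) ^ j *
        tElt (idealJ p r k) (tp p r k 1) (tp_mem_J p r k 1) ^ i := by
  apply Subtype.ext
  have e1 : ∀ a (ha : a ∈ idealJ p r k),
      ((tElt (idealJ p r k) a ha : reesAlgebra (idealJ p r k)) : Polynomial (coneRing p r k)) =
      Polynomial.C a * Polynomial.X := by
    intro a ha
    simp [tElt, reesMon, Polynomial.C_mul_X_eq_monomial]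
  simp only [Subalgebra.coe_pow, Subalgebra.coe_mul, e1]
  have hN := congrArg (Polynomial.C) (xg_pow p r k i j h)
  simp only [map_mul, map_pow] at hN
  rw [mul_pow, hN, mul_pow, mul_pow]
  have : (Polynomial.X : Polynomial (coneRing p r k)) ^ p =
      Polynomial.X ^ j * Polynomial.X ^ i := by rw [← pow_add, h]
  rw [this]
  ring

lemma exists_notMem (hp : 0 < p) (y : ProjectiveSpectrum (reesPiece (idealJ p r k))) :
    ∃ a : Fin 2, tElt (idealJ p r k) (tp p r k a) (tp_mem_J p r k a) ∉
      y.asHomogeneousIdeal := by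
  by_contra hcon
  have hcon' : ∀ a : Fin 2, tElt (idealJ p r k) (tp p r k a) (tp_mem_J p r k a) ∈
      y.asHomogeneousIdeal.toIdeal := by
    intro a
    by_contra h
    exact hcon ⟨a, h⟩
  refine false_of_span (idealJ p r k) y _ rfl ?_
  rintro s ⟨i, rfl⟩ hs
  have h1 := tElt_pow p r k i (p - i) (by omega)
  have h2 : tElt (idealJ p r k) (xg p r k i (p - i) (by omega)) (xg_mem_J p r k _ _ _) ^ p ∈
      y.asHomogeneousIdeal.toIdeal := by
    rw [h1]
    by_cases hi : (i : ℕ) = 0
    · exact Ideal.mul_mem_right _ _ (Ideal.pow_mem_of_mem _ (hcon' 0) _ (by omega))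
    · exact Ideal.mul_mem_left _ _ (Ideal.pow_mem_of_mem _ (hcon' 1) _ (by omega))
  exact y.isPrime.mem_of_pow_mem _ h2

variable (hp : 0 < p)

include hp in
lemma exists_chart (y : resY p r k) : ∃ a, y ∈ (chart p r k a).opensRange := by
  obtain ⟨a, ha⟩ := exists_notMem p r k hp y
  refine ⟨a, ?_⟩
  have h : y ∈ (Proj.basicOpen (reesPiece (idealJ p r k)) (tElt (idealJ p r k) (tp p r k a)
      (tp_mem_J p r k a)) : (Proj (reesPiece (idealJ p r k))).Opens) := ha
  rw [← chart_opensRange] at h
  exact h

include hp in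
lemma iSup_chart : ⨆ a, (chart p r k a).opensRange = ⊤ := by
  rw [eq_top_iff]
  intro y _
  rw [Opens.mem_iSup]
  exact exists_chart p r k hp y

include hp in
lemma resY_smooth : SmoothOfRelativeDimension (r + 2) (resF p r k ≫ str p r k) := by
  rw [IsZariskiLocalAtSource.iff_of_iSup_eq_top (P := @SmoothOfRelativeDimension (r + 2))
    (fun a : Fin 2 => (chart p r k a).opensRange) (iSup_chart p r k hp)]
  intro a
  rw [← MorphismProperty.cancel_left_of_respectsIso (P := @SmoothOfRelativeDimension (r + 2))
    (chart p r k a).isoOpensRange.hom]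
  rw [← Category.assoc, Scheme.Hom.isoOpensRange_hom_ι, chart_resF_structure,
    HasRingHomProperty.Spec_iff (P := @SmoothOfRelativeDimension (r + 2))]
  apply RingHom.locally_of RingHom.isStandardSmoothOfRelativeDimension_respectsIso
  have h := isStandardSmooth_of_bijective (tC p r k hp a) (tC_bijective p r k hp a)
  have hc : Nat.card (Fin 2 ⊕ Fin r) = r + 2 := by
    rw [Nat.card_sum, Nat.card_fin, Nat.card_fin, add_comm]
  rw [hc] at h
  exact (RingHom.isStandardSmoothOfRelativeDimension_algebraMap (r + 2)).2 h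

lemma resY_integral : IsIntegral (resY p r k) :=
  blow_integral (idealJ p r k) (tp p r k 0) (tp_mem_J p r k _) (tp_ne_zero p r k _)

instance resY_isIntegral : IsIntegral (resY p r k) := resY_integral p r k

lemma resF_proper : IsProper (resF p r k) := blowMap_isProper _ (idealJ_fg p r k)

/-- The open subset `s ^ p ≠ 0` (or `t ^ p ≠ 0`) of `X`. -/
noncomputable def opD (a : Fin 2) : (XS p r k).Opens :=
  (PrimeSpectrum.basicOpen (tp p r k a) : (Spec (CommRingCat.of (coneRing p r k))).Opens)

lemma resF_isIso (a : Fin 2) : IsIso (resF p r k ∣_ opD p r k a) :=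
  isIso_blowMap_restrict (idealJ p r k) (tp p r k a) (tp_mem_J p r k a) (tp_ne_zero p r k a)

lemma XS_integral : IsIntegral (XS p r k) :=
  inferInstanceAs (IsIntegral (Spec (CommRingCat.of (coneRing p r k))))

lemma opD_nonempty (a : Fin 2) : (opD p r k a : Set (XS p r k)).Nonempty := by
  refine ⟨(⊥ : PrimeSpectrum (coneRing p r k)), ?_⟩
  change tp p r k a ∉ (⊥ : PrimeSpectrum (coneRing p r k)).asIdeal
  intro h
  have h2 : tp p r k a ∈ (⊥ : Ideal (coneRing p r k)) := h
  exact tp_ne_zero p r k a h2

lemma resF_birational : ∃ U : (XS p r k).Opens, Dense (U : Set (XS p r k)) ∧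
    Dense ((resF p r k ⁻¹ᵁ U : (resY p r k).Opens) : Set (resY p r k)) ∧
      IsIso (resF p r k ∣_ U) := by
  have h1 := XS_integral p r k
  have h2 := resY_integral p r k
  refine ⟨opD p r k 0, ?_, ?_, resF_isIso p r k _⟩
  · exact (opD p r k 0).isOpen.dense (opD_nonempty p r k _)
  · apply (resF p r k ⁻¹ᵁ (opD p r k 0)).isOpen.dense
    obtain ⟨z, hz⟩ := opD_nonempty p r k 0
    have h3 := resF_isIso p r k 0
    obtain ⟨w, -⟩ := (resF p r k ∣_ opD p r k 0).surjective ⟨z, hz⟩
    exact ⟨w.1, w.2⟩

/-- the generic point of the resolution specialises to every point of `X` -/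
lemma generic_resF (x : XS p r k) : resF p r k (genericPoint (resY p r k)) ⤳ x := by
  rw [specializes_iff_mem_closure]
  have h1 := XS_integral p r k
  have hd : Dense (opD p r k 0 : Set (XS p r k)) :=
    (opD p r k 0).isOpen.dense (opD_nonempty p r k _)
  have hr : (opD p r k 0 : Set (XS p r k)) ⊆
      closure {resF p r k (genericPoint (resY p r k))} := by
    intro z hz
    have h3 := resF_isIso p r k 0
    obtain ⟨w, hw⟩ := (resF p r k ∣_ opD p r k 0).surjective ⟨z, hz⟩
    have hw2 : resF p r k w.1 = z := by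
      have := morphismRestrict_base_coe (resF p r k) (opD p r k 0) w
      rw [hw] at this
      exact this.symm
    rw [← specializes_iff_mem_closure, ← hw2]
    exact (generic_specializes (Y := resY p r k) w.1).map (resF p r k).continuous
  have h2 : closure {resF p r k (genericPoint (resY p r k))} = Set.univ := by
    apply Set.eq_univ_of_univ_subset
    rw [← hd.closure_eq]
    exact closure_minimal hr isClosed_closure
  rw [h2]
  trivial

/-! ### the exceptional locus -/

lemma resF_chart_mem (a : Fin 2) (z : Spec (CommRingCat.of (ChartRing p r k a)))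
    (b : coneRing p r k) :
    b ∈ (resF p r k (chart p r k a z)).asIdeal ↔ toChart p r k a b ∈ z.asIdeal := by
  have h : resF p r k (chart p r k a z) = (chart p r k a ≫ resF p r k) z := rfl
  rw [h, chart_resF]
  rfl

/-- a point of `X` is smooth if and only if `s ^ p` or `t ^ p` does not vanish there; here we
need one direction -/
lemma exists_opD_of_smooth (hp2 : 2 ≤ p) (x : XS p r k) (hx : IsSmoothPoint (str p r k) x) :
    ∃ a, x ∈ opD p r k a := by
  by_contra hcon
  refine not_isSmoothPoint p r k hp2 x ?_ ?_ hx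
  · by_contra h
    exact hcon ⟨0, h⟩
  · by_contra h
    exact hcon ⟨1, h⟩

lemma mem_exc_iff (hp2 : 2 ≤ p) (a : Fin 2) (z : Spec (CommRingCat.of (ChartRing p r k a))) :
    chart p r k a z ∈ exceptionalLocus (resF p r k) ↔
      tC p r k hp a (Sum.inl 0) ∈ z.asIdeal := by
  constructor
  · intro h
    by_contra hz
    apply h
    have hz2 : resF p r k (chart p r k a z) ∈ opD p r k a := by
      change tp p r k a ∉ (resF p r k (chart p r k a z)).asIdeal
      rw [resF_chart_mem, toChart_tp p r k hp]
      exact hz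
    refine ⟨resF p r k ⁻¹ᵁ opD p r k a, hz2, ?_⟩
    have h3 := resF_isIso p r k a
    rw [← morphismRestrict_ι]
    infer_instance
  · intro hz
    rintro ⟨V, hV, hVo⟩
    have hpr : z.asIdeal.IsPrime := PrimeSpectrum.isPrime z
    have h1 : tp p r k a ∈ (resF p r k (chart p r k a z)).asIdeal := by
      rw [resF_chart_mem, toChart_tp p r k hp]
      exact hz
    have h2 : tp p r k (ot a) ∈ (resF p r k (chart p r k a z)).asIdeal := by
      rw [resF_chart_mem, toChart_ot p r k hp]
      exact Ideal.mul_mem_right _ _ hz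
    have hns : ¬ IsSmoothPoint (str p r k) (resF p r k (chart p r k a z)) := by
      fin_cases a
      · exact not_isSmoothPoint p r k hp2 _ h1 h2
      · exact not_isSmoothPoint p r k hp2 _ h2 h1
    apply hns
    refine ⟨(V.ι ≫ resF p r k).opensRange, ⟨⟨chart p r k a z, hV⟩, rfl⟩, ?_⟩
    have hs := resY_smooth p r k hp
    have hs2 : Smooth (resF p r k ≫ str p r k) := SmoothOfRelativeDimension.smooth (r + 2) _
    have hs3 : Smooth (V.ι ≫ resF p r k ≫ str p r k) := inferInstance
    have h4 : (V.ι ≫ resF p r k).opensRange.ι ≫ str p r k =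
        (V.ι ≫ resF p r k).isoOpensRange.inv ≫ V.ι ≫ resF p r k ≫ str p r k := by
      rw [Iso.eq_inv_comp, ← Category.assoc, Scheme.Hom.isoOpensRange_hom_ι, Category.assoc]
    rw [h4]
    infer_instance

/-! ### simple normal crossings -/

/-- The reindexing. -/
def eIdx : Fin (r + 2) ≃ Fin 2 ⊕ Fin r :=
  (finCongr (add_comm r 2)).trans finSumFinEquiv.symm

/-- The coordinates of the chart, indexed by `Fin (r + 2)`. -/
noncomputable def tI (a : Fin 2) (m : Fin (r + 2)) : ChartRing p r k a :=
  tC p r k hp a (eIdx r m)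

lemma tI_bijective (a : Fin 2) : Function.Bijective
    (MvPolynomial.aeval (tI p r k hp a) :
      MvPolynomial (Fin (r + 2)) k →ₐ[k] ChartRing p r k a) := by
  have h : (MvPolynomial.aeval (tI p r k hp a) :
      MvPolynomial (Fin (r + 2)) k →ₐ[k] ChartRing p r k a) =
      (MvPolynomial.aeval (tC p r k hp a) : PR r k →ₐ[k] ChartRing p r k a).comp
        (MvPolynomial.renameEquiv k (eIdx r)).toAlgHom := by
    apply MvPolynomial.algHom_ext
    intro m
    simp [tI]
  rw [h, AlgHom.coe_comp]
  exact (tC_bijective p r k hp a).comp (MvPolynomial.renameEquiv k (eIdx r)).bijective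

/-- The coordinates, as a morphism to affine space. -/
noncomputable def tMap (a : Fin 2) : Spec (CommRingCat.of (ChartRing p r k a)) ⟶
    affineSpace (r + 2) k :=
  Spec.map (CommRingCat.ofHom (MvPolynomial.aeval (tI p r k hp a) :
      MvPolynomial (Fin (r + 2)) k →ₐ[k] ChartRing p r k a).toRingHom)

lemma tMap_isIso (a : Fin 2) : IsIso (tMap p r k hp a) := by
  have h' : IsIso (CommRingCat.ofHom (MvPolynomial.aeval (tI p r k hp a) :
      MvPolynomial (Fin (r + 2)) k →ₐ[k] ChartRing p r k a).toRingHom) :=
    (RingEquiv.ofBijective (MvPolynomial.aeval (tI p r k hp a) :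
      MvPolynomial (Fin (r + 2)) k →ₐ[k] ChartRing p r k a).toRingHom
        (tI_bijective p r k hp a)).toCommRingCatIso.isIso_hom
  exact inferInstanceAs (IsIso (Spec.map _))

include hp in
theorem resF_snc (hp2 : 2 ≤ p) :
    IsSNC (r + 2) (resF p r k ≫ str p r k) (exceptionalLocus (resF p r k)) := by
  intro y
  obtain ⟨a, hy⟩ := exists_chart p r k hp y
  have h1 := tMap_isIso p r k hp a
  refine ⟨(chart p r k a).opensRange, (chart p r k a).isoOpensRange.inv ≫ tMap p r k hp a,
    {(eIdx r).symm (Sum.inl 0)}, hy, inferInstance, ?_, ?_⟩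
  · have h2 : tMap p r k hp a ≫ affineSpaceStr (r + 2) k =
        Spec.map (CommRingCat.ofHom (algebraMap k (ChartRing p r k a))) := by
      have e : Spec.map (CommRingCat.ofHom (MvPolynomial.aeval (tI p r k hp a) :
          MvPolynomial (Fin (r + 2)) k →ₐ[k] ChartRing p r k a).toRingHom) ≫
          Spec.map (CommRingCat.ofHom (algebraMap k (MvPolynomial (Fin (r + 2)) k))) =
          Spec.map (CommRingCat.ofHom (algebraMap k (ChartRing p r k a))) := by
        rw [← Spec.map_comp, ← CommRingCat.ofHom_comp]
        congr 2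
        exact (MvPolynomial.aeval (tI p r k hp a) :
          MvPolynomial (Fin (r + 2)) k →ₐ[k] ChartRing p r k a).comp_algebraMap
      exact e
    rw [Category.assoc, h2, ← chart_resF_structure, ← Category.assoc,
      Scheme.Hom.isoOpensRange_inv_comp]
  · intro v
    obtain ⟨z, rfl⟩ : ∃ z, (chart p r k a).isoOpensRange.hom z = v :=
      (chart p r k a).isoOpensRange.hom.surjective v
    have h3 : ((chart p r k a).isoOpensRange.hom z).1 = chart p r k a z := by
      have := congrArg (fun f => f z) (Scheme.Hom.isoOpensRange_hom_ι (chart p r k a))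
      exact this
    have h4 : ((chart p r k a).isoOpensRange.inv ≫ tMap p r k hp a)
        ((chart p r k a).isoOpensRange.hom z) = tMap p r k hp a z := by
      rw [← Scheme.Hom.comp_apply, Iso.hom_inv_id_assoc]
    rw [h3, mem_exc_iff p r k hp hp2, h4]
    have h5 : tMap p r k hp a z ∈ coordDivisor (r + 2) k {(eIdx r).symm (Sum.inl 0)} ↔
        (MvPolynomial.aeval (tI p r k hp a) :
          MvPolynomial (Fin (r + 2)) k →ₐ[k] ChartRing p r k a)
          (∏ i ∈ {(eIdx r).symm (Sum.inl 0)}, MvPolynomial.X i) ∈ z.asIdeal := Iff.rfl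
    rw [h5, Finset.prod_singleton, MvPolynomial.aeval_X, tI, Equiv.apply_symm_apply]

include hp in
theorem resF_isLogResolution (hp2 : 2 ≤ p) : IsLogResolution (r + 2) (resF p r k) (str p r k) where
  smooth := resY_smooth p r k hp
  proper := resF_proper p r k
  birational := resF_birational p r k
  snc := resF_snc p r k hp hp2

end Pool.Agent.W498.Lift
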