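import Pool.Agent.W498.Lift.Ring

/-!
The ring `R` is not smooth along the vertex.
-/

set_option autoImplicit false

open MvPolynomial

universe u

namespace Pool.Agent.W498.Lift

variable (p r : ℕ) (k : Type u) [Field k]

/-- the polynomial ring `k[y_1, …, y_r]` -/
abbrev AR : Type u := MvPolynomial (Fin r) k

/-- the field `k(y_1, …, y_r)` -/
abbrev LR : Type u := FractionRing (AR r k)

/-- Polynomials as polynomials in `s, t` with coefficients in `k[y]`. -/
noncomputable def Psi : PR r k →ₐ[k] MvPolynomial (Fin 2) (AR r k) :=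
  aeval (Sum.elim X (fun j => C (X j)))

lemma Psi_s (a : Fin 2) : Psi r k (X (Sum.inl a)) = X a := by simp [Psi]

lemma Psi_y (j : Fin r) : Psi r k (X (Sum.inr j)) = C (X j) := by simp [Psi]

/-- the exponent of `s^a t^b` -/
noncomputable def ex (a b : ℕ) : Fin 2 →₀ ℕ := Finsupp.single 0 a + Finsupp.single 1 b

lemma ex_zero (a b : ℕ) : ex a b 0 = a := by simp [ex]
lemma ex_one (a b : ℕ) : ex a b 1 = b := by simp [ex]

lemma eq_ex (n : Fin 2 →₀ ℕ) : n = ex (n 0) (n 1) := by
  ext i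
  fin_cases i
  · exact (ex_zero _ _).symm
  · exact (ex_one _ _).symm

lemma mono_ex (a b : ℕ) : (X 0 ^ a * X 1 ^ b : MvPolynomial (Fin 2) (AR r k)) =
    monomial (ex a b) 1 := by
  rw [X_pow_eq_monomial, X_pow_eq_monomial, monomial_mul, one_mul, ex]

lemma Psi_monomial (m : (Fin 2 ⊕ Fin r) →₀ ℕ) (c : k) :
    ∃ g : AR r k, Psi r k (monomial m c) = monomial (ex (m (Sum.inl 0)) (m (Sum.inl 1))) g := by
  refine ⟨C c * ∏ j : Fin r, X j ^ m (Sum.inr j), ?_⟩
  have h1 : Psi r k (monomial m c) = C (C c) * ((X 0 ^ m (Sum.inl 0) * X 1 ^ m (Sum.inl 1)) *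
        ∏ j : Fin r, C (X j) ^ m (Sum.inr j)) := by
    rw [monomial_eq, map_mul, Finsupp.prod_fintype _ _ (by intro i; exact pow_zero _), map_prod,
      Fintype.prod_sum_type, Fin.prod_univ_two]
    simp only [map_pow, Psi_s, Psi_y]
    congr 1
    rw [Psi, aeval_C]
    rfl
  rw [h1, mono_ex]
  have h2 : (∏ j : Fin r, C (X j) ^ m (Sum.inr j) : MvPolynomial (Fin 2) (AR r k)) =
      C (∏ j : Fin r, X j ^ m (Sum.inr j)) := by
    rw [map_prod]
    simp only [map_pow]
  rw [h2, mul_comm (monomial _ _), ← mul_assoc, ← C_mul, C_mul_monomial, mul_one]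

lemma coeff_Psi {f : PR r k} (hf : f ∈ coneRing p r k) (n : Fin 2 →₀ ℕ)
    (hn : coeff n (Psi r k f) ≠ 0) : p ∣ n 0 + n 1 := by
  classical
  rw [f.as_sum, map_sum, coeff_sum] at hn
  obtain ⟨m, hm, hne⟩ := Finset.exists_ne_zero_of_sum_ne_zero hn
  obtain ⟨g, hg⟩ := Psi_monomial r k m (coeff m f)
  rw [hg, coeff_monomial] at hne
  have h : ex (m (Sum.inl 0)) (m (Sum.inl 1)) = n := by
    by_contra h
    rw [if_neg h] at hne
    exact hne rfl
  rw [← h, ex_zero, ex_one]
  exact hf m (mem_support_iff.mp hm)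

/-- product rule for the coefficient of `s^(p-1) t` -/
lemma coeff_mul_ex (hp : 2 ≤ p) {F G : MvPolynomial (Fin 2) (AR r k)}
    (hF : ∀ n, coeff n F ≠ 0 → p ∣ n 0 + n 1) (hG : ∀ n, coeff n G ≠ 0 → p ∣ n 0 + n 1) :
    coeff (ex (p - 1) 1) (F * G) = coeff 0 F * coeff (ex (p - 1) 1) G +
      coeff (ex (p - 1) 1) F * coeff 0 G := by
  classical
  rw [coeff_mul]
  have hne : ((0 : Fin 2 →₀ ℕ), ex (p - 1) 1) ≠ (ex (p - 1) 1, 0) := by
    intro h
    have h1 := congrArg Prod.fst h
    have h2 := DFunLike.congr_fun h1 1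
    rw [ex_one] at h2
    simp at h2
  refine Finset.sum_eq_add ((0 : Fin 2 →₀ ℕ), ex (p - 1) 1) (ex (p - 1) 1, 0) hne ?_ ?_ ?_
  · rintro ⟨a, b⟩ hab ⟨h1, h2⟩
    rw [Finset.HasAntidiagonal.mem_antidiagonal] at hab
    by_contra hcon
    have ha := hF a (left_ne_zero_of_mul hcon)
    have hb := hG b (right_ne_zero_of_mul hcon)
    have e0 := DFunLike.congr_fun hab 0
    have e1 := DFunLike.congr_fun hab 1
    rw [ex_zero] at e0
    rw [ex_one] at e1
    simp only [Finsupp.coe_add, Pi.add_apply] at e0 e1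
    obtain ⟨c, hc⟩ := ha
    have hc2 : c = 0 ∨ c = 1 ∨ 2 ≤ c := by omega
    rcases hc2 with rfl | rfl | hc2
    · have ha0 : a = 0 := by
        rw [eq_ex a]
        have q0 : a 0 = 0 := by omega
        have q1 : a 1 = 0 := by omega
        rw [q0, q1]
        simp [ex]
      subst ha0
      apply h1
      rw [← hab, zero_add]
    · have hb0 : b = 0 := by
        rw [eq_ex b]
        have q0 : b 0 = 0 := by omega
        have q1 : b 1 = 0 := by omega
        rw [q0, q1]
        simp [ex]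
      subst hb0
      apply h2
      rw [← hab, add_zero]
    · have : p * 2 ≤ p * c := Nat.mul_le_mul_left p hc2
      omega
  · intro h
    exact absurd (by rw [Finset.HasAntidiagonal.mem_antidiagonal, zero_add]) h
  · intro h
    exact absurd (by rw [Finset.HasAntidiagonal.mem_antidiagonal, add_zero]) h

/-- The ideal `(ε ^ n)` in `L[ε]`. -/
noncomputable abbrev IT (n : ℕ) : Ideal (Polynomial (LR r k)) :=
  Ideal.span {(Polynomial.X : Polynomial (LR r k)) ^ n}

/-- The ring `L[ε] / (ε ^ n)`. -/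
def TP (n : ℕ) : Type u := Polynomial (LR r k) ⧸ IT r k n

noncomputable instance (n : ℕ) : CommRing (TP r k n) :=
  inferInstanceAs (CommRing (Polynomial (LR r k) ⧸ IT r k n))

noncomputable instance (n : ℕ) : Algebra k (TP r k n) :=
  inferInstanceAs (Algebra k (Polynomial (LR r k) ⧸ IT r k n))

/-- the class of a polynomial -/
noncomputable def mkT (n : ℕ) : Polynomial (LR r k) →+* TP r k n := Ideal.Quotient.mk (IT r k n)

lemma mkT_surjective (n : ℕ) : Function.Surjective (mkT r k n) :=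
  Ideal.Quotient.mk_surjective (I := IT r k n)

lemma mkT_eq_zero {n : ℕ} {P : Polynomial (LR r k)} :
    mkT r k n P = 0 ↔ (Polynomial.X : Polynomial (LR r k)) ^ n ∣ P := by
  have h : mkT r k n P = 0 ↔ P ∈ IT r k n := Ideal.Quotient.eq_zero_iff_mem (I := IT r k n)
  rw [h, Ideal.mem_span_singleton]

/-- constants -/
noncomputable def io : AR r k →+* Polynomial (LR r k) :=
  (Polynomial.C : LR r k →+* _).comp (algebraMap (AR r k) (LR r k))

/-- The first order map `f ↦ f_0 + f_1 ε`. -/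
noncomputable def f0 (hp : 2 ≤ p) : coneRing p r k →+* TP r k 2 where
  toFun f := mkT r k 2 (io r k (coeff 0 (Psi r k f)) +
    io r k (coeff (ex (p - 1) 1) (Psi r k f)) * Polynomial.X)
  map_one' := by
    classical
    have h : coeff (ex (p - 1) 1) (1 : MvPolynomial (Fin 2) (AR r k)) = 0 := by
      rw [coeff_one, if_neg]
      intro h
      have h2 := DFunLike.congr_fun h 1
      rw [ex_one] at h2
      simp at h2
    rw [OneMemClass.coe_one, map_one, h, coeff_zero_one]
    simp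
  map_mul' f g := by
    have h0 : coeff 0 (Psi r k ((f * g : coneRing p r k) : PR r k)) =
        coeff 0 (Psi r k f) * coeff 0 (Psi r k g) := by
      rw [Subalgebra.coe_mul, map_mul]
      exact map_mul constantCoeff _ _
    have h1 : coeff (ex (p - 1) 1) (Psi r k ((f * g : coneRing p r k) : PR r k)) =
        coeff 0 (Psi r k f) * coeff (ex (p - 1) 1) (Psi r k g) +
          coeff (ex (p - 1) 1) (Psi r k f) * coeff 0 (Psi r k g) := by
      rw [Subalgebra.coe_mul, map_mul]
      exact coeff_mul_ex p r k hp (coeff_Psi p r k f.2) (coeff_Psi p r k g.2)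
    rw [h0, h1, ← map_mul, ← sub_eq_zero, ← map_sub, mkT_eq_zero]
    refine ⟨-(io r k (coeff (ex (p - 1) 1) (Psi r k f)) *
      io r k (coeff (ex (p - 1) 1) (Psi r k g))), ?_⟩
    simp only [map_mul, map_add]
    ring
  map_zero' := by
    simp
  map_add' f g := by
    have h1 : Psi r k ((f + g : coneRing p r k) : PR r k) = Psi r k f + Psi r k g := by
      rw [Subalgebra.coe_add, map_add]
    rw [h1, coeff_add, coeff_add, ← map_add (mkT r k 2)]
    congr 1
    rw [map_add (io r k), map_add (io r k)]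
    ring

lemma f0_apply (hp : 2 ≤ p) (f : coneRing p r k) : f0 p r k hp f =
    mkT r k 2 (io r k (coeff 0 (Psi r k f)) +
      io r k (coeff (ex (p - 1) 1) (Psi r k f)) * Polynomial.X) := rfl

lemma f0_algebraMap (hp : 2 ≤ p) (c : k) :
    f0 p r k hp (algebraMap k (coneRing p r k) c) = algebraMap k (TP r k 2) c := by
  classical
  have h : Psi r k ((algebraMap k (coneRing p r k) c : coneRing p r k) : PR r k) = C (C c) := by
    have : ((algebraMap k (coneRing p r k) c : coneRing p r k) : PR r k) =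
      algebraMap k (PR r k) c := rfl
    rw [this, AlgHom.commutes]
    rfl
  have h1 : coeff (ex (p - 1) 1) (C (C c) : MvPolynomial (Fin 2) (AR r k)) = 0 := by
    rw [coeff_C, if_neg]
    intro h
    have h2 := DFunLike.congr_fun h 1
    rw [ex_one] at h2
    simp at h2
  rw [f0_apply, h, h1, coeff_zero_C, map_zero, zero_mul, add_zero]
  rfl

/-- The first order map as a map of `k`-algebras. -/
noncomputable def f1 (hp : 2 ≤ p) : coneRing p r k →ₐ[k] TP r k 2 :=
  { f0 p r k hp with commutes' := f0_algebraMap p r k hp }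

lemma f1_apply (hp : 2 ≤ p) (f : coneRing p r k) : f1 p r k hp f = f0 p r k hp f := rfl

lemma f1_isUnit (hp : 2 ≤ p) (h : coneRing p r k) (hh : coeff 0 (Psi r k h) ≠ 0) :
    IsUnit (f1 p r k hp h) := by
  rw [f1_apply, f0_apply]
  set a := algebraMap (AR r k) (LR r k) (coeff 0 (Psi r k h)) with ha
  have ha0 : a ≠ 0 := by
    rw [ha, Ne, FaithfulSMul.algebraMap_eq_zero_iff]
    exact hh
  set b := io r k (coeff (ex (p - 1) 1) (Psi r k h)) with hb
  have hio : io r k (coeff 0 (Psi r k h)) = Polynomial.C a := rfl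
  rw [hio]
  rw [isUnit_iff_exists_inv]
  refine ⟨mkT r k 2 (Polynomial.C (a⁻¹) -
    Polynomial.C (a⁻¹ * a⁻¹) * b * Polynomial.X), ?_⟩
  rw [← map_mul, ← sub_eq_zero, ← map_one (mkT r k 2), ← map_sub, mkT_eq_zero]
  refine ⟨- Polynomial.C (a⁻¹ * a⁻¹) * b * b, ?_⟩
  have e1 : Polynomial.C a * Polynomial.C (a⁻¹) = 1 := by
    rw [← Polynomial.C_mul, mul_inv_cancel₀ ha0, Polynomial.C_1]
  rw [Polynomial.C_mul]
  linear_combination (1 - (Polynomial.C a⁻¹) * b * Polynomial.X) * e1

theorem not_formallySmooth (hp : 2 ≤ p) (h : coneRing p r k) (hh : coeff 0 (Psi r k h) ≠ 0) :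
    ¬ Algebra.FormallySmooth k (Localization.Away h) := by
  classical
  intro hfs
  let f2 : Localization.Away h →ₐ[k] TP r k 2 :=
    IsLocalization.liftAlgHom (M := Submonoid.powers h) (S := Localization.Away h)
      (f := f1 p r k hp) (by
        rintro ⟨_, n, rfl⟩
        rw [map_pow]
        exact (f1_isUnit p r k hp h hh).pow n)
  have hf2 : ∀ x : coneRing p r k, f2 (algebraMap _ _ x) = f1 p r k hp x := fun x =>
    IsLocalization.lift_eq _ x
  have hle : (Ideal.span {(Polynomial.X : Polynomial (LR r k)) ^ 3}) ≤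
      (Ideal.span {(Polynomial.X : Polynomial (LR r k)) ^ 2}) := by
    rw [Ideal.span_singleton_le_span_singleton]
    exact pow_dvd_pow _ (by norm_num)
  let g : TP r k 3 →ₐ[k] TP r k 2 :=
    (Ideal.Quotient.factorₐ k hle : (Polynomial (LR r k) ⧸ IT r k 3) →ₐ[k]
      (Polynomial (LR r k) ⧸ IT r k 2))
  have hg : ∀ P, g (mkT r k 3 P) = mkT r k 2 P := fun P => rfl
  have hgs : Function.Surjective g := by
    intro z
    obtain ⟨P, rfl⟩ := mkT_surjective r k _ z
    exact ⟨mkT r k 3 P, rfl⟩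
  have hker : IsNilpotent (RingHom.ker (g : TP r k 3 →+* TP r k 2)) := by
    refine ⟨2, ?_⟩
    rw [pow_two]
    refine le_bot_iff.mp ?_
    rw [Ideal.mul_le]
    intro a ha b hb
    obtain ⟨P, rfl⟩ := mkT_surjective r k _ a
    obtain ⟨Q, rfl⟩ := mkT_surjective r k _ b
    have hP : mkT r k 2 P = 0 := ha
    have hQ : mkT r k 2 Q = 0 := hb
    rw [mkT_eq_zero] at hP hQ
    rw [Ideal.mem_bot, ← map_mul]
    apply (mkT_eq_zero r k).mpr
    exact (pow_dvd_pow _ (by norm_num)).trans ((pow_add _ 2 2).dvd.trans (mul_dvd_mul hP hQ))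
  let G := Algebra.FormallySmooth.liftOfSurjective f2 g hgs hker
  have hG : ∀ z, g (G z) = f2 z := fun z =>
    Algebra.FormallySmooth.liftOfSurjective_apply f2 g hgs hker z
  have hlift : ∀ x : coneRing p r k, ∃ P, G (algebraMap _ _ x) = mkT r k 3 P ∧
      mkT r k 2 P = f0 p r k hp x := by
    intro x
    obtain ⟨P, hP⟩ := mkT_surjective r k _ (G (algebraMap _ _ x))
    refine ⟨P, hP.symm, ?_⟩
    rw [← hg, ← f1_apply, ← hf2, ← hG, ← hP]
  obtain ⟨q, rfl⟩ : ∃ q, p = q + 2 := ⟨p - 2, by omega⟩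
  set x0 := xg (q + 2) r k 0 (q + 2) (by omega)
  set x1 := xg (q + 2) r k 1 (q + 1) (by omega)
  set x2 := xg (q + 2) r k 2 q (by omega)
  have hrel : x0 * x2 = x1 * x1 := by
    apply Subtype.ext
    simp only [Subalgebra.coe_mul, x0, x1, x2, coe_xg]
    ring
  have hPx : ∀ i j (hij : j + i = q + 2), Psi r k (xg (q + 2) r k i j hij : PR r k) =
      monomial (ex j i) 1 := by
    intro i j hij
    rw [coe_xg, map_mul, map_pow, map_pow, Psi_s, Psi_s, mono_ex]
  have hne0 : ∀ i j (_ : j + i = q + 2), ex j i ≠ 0 := by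
    intro i j hij h0
    have e0 := DFunLike.congr_fun h0 0
    have e1 := DFunLike.congr_fun h0 1
    rw [ex_zero] at e0
    rw [ex_one] at e1
    simp only [Finsupp.coe_zero, Pi.zero_apply] at e0 e1
    omega
  have hfz : ∀ i j (hij : j + i = q + 2), i ≠ 1 →
      f0 (q + 2) r k hp (xg (q + 2) r k i j hij) = 0 := by
    intro i j hij hi
    rw [f0_apply, hPx, coeff_monomial, coeff_monomial, if_neg (hne0 i j hij), if_neg]
    · simp
    · intro h0
      have e1 := DFunLike.congr_fun h0 1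
      rw [ex_one, ex_one] at e1
      exact hi e1
  have hf1 : f0 (q + 2) r k hp x1 = mkT r k 2 Polynomial.X := by
    rw [f0_apply, hPx, coeff_monomial, coeff_monomial, if_neg (hne0 1 (q + 1) (by omega)), if_pos]
    · simp
    · rfl
  obtain ⟨P0, h0, h0'⟩ := hlift x0
  obtain ⟨P1, h1, h1'⟩ := hlift x1
  obtain ⟨P2, h2, h2'⟩ := hlift x2
  rw [hfz 0 (q + 2) (by omega) (by norm_num), mkT_eq_zero] at h0'
  rw [hfz 2 q (by omega) (by norm_num), mkT_eq_zero] at h2'
  rw [hf1, ← sub_eq_zero, ← map_sub, mkT_eq_zero] at h1'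
  have h3 := congrArg (fun z => G (algebraMap _ _ z)) hrel
  simp only [map_mul, h0, h1, h2] at h3
  rw [← map_mul, ← map_mul, ← sub_eq_zero, ← map_sub, mkT_eq_zero] at h3
  obtain ⟨Q0, rfl⟩ := h0'
  obtain ⟨Q2, rfl⟩ := h2'
  obtain ⟨Q1, hQ1⟩ := h1'
  obtain ⟨W, hW⟩ := h3
  have hP1 : P1 = Polynomial.X + Polynomial.X ^ 2 * Q1 := by
    rw [← hQ1]; ring
  rw [hP1] at hW
  have h4 : (Polynomial.X : Polynomial (LR r k)) ^ 2 * (Polynomial.X ^ 2 * Q0 * Q2 -
      (1 + Polynomial.X * Q1) ^ 2) = Polynomial.X ^ 2 * (Polynomial.X * W) := by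
    linear_combination hW
  have h5 := mul_left_cancel₀ (pow_ne_zero 2 Polynomial.X_ne_zero) h4
  have h6 := congrArg (Polynomial.eval 0) h5
  simp at h6

end Pool.Agent.W498.Lift
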