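import Pool.Agent.W498.Lift.Split

/-!
The ring `R = k[s^p, s^(p-1) t, …, t^p, y_1, …, y_r]`: the cone over the rational normal curve of
degree `p`, times an affine space.
-/

set_option autoImplicit false

open MvPolynomial

universe u

namespace Pool.Agent.W498.Lift

variable (p r : ℕ) (k : Type u) [Field k]

/-- the polynomial ring `k[s, t, y_1, …, y_r]` -/
abbrev PR : Type u := MvPolynomial (Fin 2 ⊕ Fin r) k

/-- the degree in `s, t` of a monomial -/
def dg {r : ℕ} (m : (Fin 2 ⊕ Fin r) →₀ ℕ) : ℕ := m (Sum.inl 0) + m (Sum.inl 1)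

lemma dg_add {r : ℕ} (m n : (Fin 2 ⊕ Fin r) →₀ ℕ) : dg (m + n) = dg m + dg n := by
  simp only [dg, Finsupp.coe_add, Pi.add_apply]
  ring

/-- The ring `R`: the polynomials all of whose monomials have degree in `s, t` divisible
by `p`. -/
def coneRing : Subalgebra k (PR r k) where
  carrier := {f | ∀ m, coeff m f ≠ 0 → p ∣ dg m}
  mul_mem' := by
    classical
    intro f g hf hg m hm
    rw [coeff_mul] at hm
    obtain ⟨⟨a, b⟩, hab, hne⟩ := Finset.exists_ne_zero_of_sum_ne_zero hm
    rw [Finset.HasAntidiagonal.mem_antidiagonal] at hab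
    rw [← hab, dg_add]
    exact Dvd.dvd.add (hf a (left_ne_zero_of_mul hne)) (hg b (right_ne_zero_of_mul hne))
  add_mem' := by
    intro f g hf hg m hm
    rw [coeff_add] at hm
    by_cases h : coeff m f = 0
    · rw [h, zero_add] at hm
      exact hg m hm
    · exact hf m h
  algebraMap_mem' := by
    classical
    intro c m hm
    rw [algebraMap_eq, coeff_C] at hm
    have : (0 : (Fin 2 ⊕ Fin r) →₀ ℕ) = m := by
      by_contra h
      rw [if_neg h] at hm
      exact hm rfl
    rw [← this]
    simp [dg]

lemma mem_coneRing {f : PR r k} : f ∈ coneRing p r k ↔ ∀ m, coeff m f ≠ 0 → p ∣ dg m := Iff.rfl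

lemma monomial_mem_coneRing {m : (Fin 2 ⊕ Fin r) →₀ ℕ} (hm : p ∣ dg m) (c : k) :
    monomial m c ∈ coneRing p r k := by
  classical
  intro n hn
  rw [coeff_monomial] at hn
  have : m = n := by
    by_contra h
    rw [if_neg h] at hn
    exact hn rfl
  rw [← this]
  exact hm

open Classical in
/-- the projection to the part of `(s, t)`-degree divisible by `p` -/
noncomputable def rho0 (f : PR r k) : PR r k :=
  ∑ m ∈ f.support.filter (fun m => p ∣ dg m), monomial m (coeff m f)

open Classical in
lemma coeff_rho0 (f : PR r k) (m : (Fin 2 ⊕ Fin r) →₀ ℕ) :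
    coeff m (rho0 p r k f) = if p ∣ dg m then coeff m f else 0 := by
  rw [rho0, coeff_sum]
  simp only [coeff_monomial]
  rw [Finset.sum_ite_eq']
  by_cases h : p ∣ dg m
  · by_cases h' : coeff m f = 0
    · rw [if_pos h, h']
      split_ifs <;> rfl
    · rw [if_pos h, if_pos]
      rw [Finset.mem_filter, mem_support_iff]
      exact ⟨h', h⟩
  · rw [if_neg h, if_neg]
    rw [Finset.mem_filter]
    exact fun h' => h h'.2

lemma rho0_mem (f : PR r k) : rho0 p r k f ∈ coneRing p r k := by
  classical
  intro m hm
  rw [coeff_rho0] at hm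
  by_contra h
  rw [if_neg h] at hm
  exact hm rfl

lemma rho0_mul (a f : PR r k) (ha : a ∈ coneRing p r k) :
    rho0 p r k (a * f) = a * rho0 p r k f := by
  classical
  ext m
  rw [coeff_rho0, coeff_mul, coeff_mul]
  split_ifs with h
  · refine Finset.sum_congr rfl fun x hx => ?_
    rw [Finset.HasAntidiagonal.mem_antidiagonal] at hx
    by_cases h1 : coeff x.1 a = 0
    · rw [h1, zero_mul, zero_mul]
    · rw [coeff_rho0, if_pos]
      have h2 := ha x.1 h1
      rw [← hx, dg_add] at h
      exact (Nat.dvd_add_right h2).mp h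
  · symm
    refine Finset.sum_eq_zero fun x hx => ?_
    rw [Finset.HasAntidiagonal.mem_antidiagonal] at hx
    by_cases h1 : coeff x.1 a = 0
    · rw [h1, zero_mul]
    · rw [coeff_rho0, if_neg, mul_zero]
      intro h3
      apply h
      rw [← hx, dg_add]
      exact Dvd.dvd.add (ha x.1 h1) h3

/-- the projection -/
noncomputable def rho : PR r k →+ coneRing p r k where
  toFun f := ⟨rho0 p r k f, rho0_mem p r k f⟩
  map_zero' := by
    apply Subtype.ext
    simp [rho0]
  map_add' f g := by
    classical
    apply Subtype.ext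
    ext m
    simp only [Subalgebra.coe_add, coeff_add, coeff_rho0]
    split_ifs <;> simp

lemma rho_mul (a : coneRing p r k) (f : PR r k) :
    rho p r k ((coneRing p r k).val.toRingHom a * f) = a * rho p r k f := by
  apply Subtype.ext
  exact rho0_mul p r k a f a.2

lemma rho_one : rho p r k 1 = 1 := by
  classical
  apply Subtype.ext
  ext m
  change coeff m (rho0 p r k 1) = coeff m 1
  rw [coeff_rho0]
  split_ifs with h
  · rfl
  · rw [coeff_one, if_neg]
    rintro rfl
    apply h
    simp [dg]

lemma val_injective : Function.Injective (coneRing p r k).val.toRingHom :=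
  Subtype.val_injective

instance : IsIntegrallyClosed (coneRing p r k) :=
  isIntegrallyClosed_of_summand _ (val_injective p r k) (rho p r k) (rho_mul p r k)
    (rho_one p r k)

theorem coneRing_isStronglyFRegular [hp : Fact p.Prime] [CharP k p] [PerfectRing k p] :
    IsStronglyFRegular p (coneRing p r k) :=
  isStronglyFRegular_of_summand _ (val_injective p r k) (rho p r k) (rho_mul p r k)
    (rho_one p r k) p (isStronglyFRegular_mvPolynomial p k _)

/-- the generators `s^(p-i) t^i`, indexed by pairs `i + j = p` -/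
noncomputable def xg (i j : ℕ) (h : j + i = p) : coneRing p r k :=
  ⟨X (Sum.inl 0) ^ j * X (Sum.inl 1) ^ i, by
    rw [X_pow_eq_monomial, X_pow_eq_monomial, monomial_mul]
    apply monomial_mem_coneRing
    rw [dg_add]
    simp [dg, h]⟩

lemma coe_xg (i j : ℕ) (h : j + i = p) :
    (xg p r k i j h : PR r k) = X (Sum.inl 0) ^ j * X (Sum.inl 1) ^ i := rfl

/-- the elements `y_j` -/
noncomputable def yg (j : Fin r) : coneRing p r k :=
  ⟨X (Sum.inr j), by
    have := monomial_mem_coneRing p r k (m := Finsupp.single (Sum.inr j) 1) (by simp [dg]) 1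
    exact this⟩

lemma coe_yg (j : Fin r) : (yg p r k j : PR r k) = X (Sum.inr j) := rfl

/-- the elements `s^p`, `t^p` -/
noncomputable def tp (a : Fin 2) : coneRing p r k :=
  ⟨X (Sum.inl a) ^ p, by
    rw [X_pow_eq_monomial]
    apply monomial_mem_coneRing
    fin_cases a <;> simp [dg]⟩

lemma coe_tp (a : Fin 2) : (tp p r k a : PR r k) = X (Sum.inl a) ^ p := rfl

lemma tp_zero : tp p r k 0 = xg p r k 0 p (by simp) := by
  apply Subtype.ext
  rw [coe_tp, coe_xg, pow_zero, mul_one]

lemma tp_one : tp p r k 1 = xg p r k p 0 (by simp) := by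
  apply Subtype.ext
  rw [coe_tp, coe_xg, pow_zero, one_mul]

/-- the ideal of the vertex -/
noncomputable def idealJ : Ideal (coneRing p r k) :=
  Ideal.span (Set.range fun i : Fin (p + 1) => xg p r k i (p - i) (by omega))

lemma xg_mem_J (i j : ℕ) (h : j + i = p) : xg p r k i j h ∈ idealJ p r k := by
  apply Ideal.subset_span
  refine ⟨⟨i, by omega⟩, ?_⟩
  apply Subtype.ext
  simp only [coe_xg]
  congr 2
  omega

lemma tp_mem_J (a : Fin 2) : tp p r k a ∈ idealJ p r k := by
  fin_cases a
  · change tp p r k 0 ∈ _
    rw [tp_zero]; exact xg_mem_J p r k _ _ _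
  · change tp p r k 1 ∈ _
    rw [tp_one]; exact xg_mem_J p r k _ _ _

lemma idealJ_fg : (idealJ p r k).FG := by
  classical
  exact ⟨Finset.univ.image
    (fun i : Fin (p + 1) => xg p r k i (p - i) (by omega)), by simp [idealJ]⟩

lemma tp_ne_zero (a : Fin 2) : tp p r k a ≠ 0 := by
  intro h
  have h1 := congrArg Subtype.val h
  rw [coe_tp] at h1
  exact pow_ne_zero p (X_ne_zero _) h1

/-- `x_i ^ p = (s ^ p) ^ (p - i) (t ^ p) ^ i` -/
lemma xg_pow (i j : ℕ) (h : j + i = p) :
    xg p r k i j h ^ p = tp p r k 0 ^ j * tp p r k 1 ^ i := by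
  apply Subtype.ext
  simp only [Subalgebra.coe_pow, Subalgebra.coe_mul, coe_xg, coe_tp, mul_pow, ← pow_mul]
  rw [mul_comm j, mul_comm i]

lemma module_finite (hp : 0 < p) : Module.Finite (coneRing p r k) (PR r k) := by
  have hft : Algebra.FiniteType (coneRing p r k) (PR r k) :=
    Algebra.FiniteType.of_restrictScalars_finiteType k _ _
  have hint : Algebra.IsIntegral (coneRing p r k) (PR r k) := by
    constructor
    intro f
    induction f using MvPolynomial.induction_on with
    | C a =>
      exact isIntegral_algebraMap (x := algebraMap k (coneRing p r k) a)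
    | add f g hf hg => exact hf.add hg
    | mul_X f v hf =>
      refine hf.mul ?_
      rcases v with a | j
      · refine IsIntegral.of_pow hp ?_
        exact isIntegral_algebraMap (x := tp p r k a)
      · exact isIntegral_algebraMap (x := yg p r k j)
  exact Algebra.IsIntegral.finite

lemma finiteType (hp : 0 < p) : Algebra.FiniteType k (coneRing p r k) := by
  have h1 := module_finite p r k hp
  have hft : Algebra.FiniteType k (PR r k) := inferInstance
  exact ⟨fg_of_fg_of_fg k (coneRing p r k) (PR r k) hft.out h1.fg_top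
    (val_injective p r k)⟩

end Pool.Agent.W498.Lift
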