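import Pool.Agent.W498.Lift.Defs

/-!
Strong F-regularity of polynomial rings and direct summands; normality of direct summands.
-/

set_option autoImplicit false

open MvPolynomial

universe u v

namespace Pool.Agent.W498.Lift

section poly

variable (p : ℕ) [hp : Fact p.Prime] (k : Type u) [Field k] [CharP k p] [PerfectRing k p]
  {σ : Type} [Finite σ] (e : ℕ) (m0 : σ →₀ ℕ)

lemma emb_injective : Function.Injective (fun n : σ →₀ ℕ => m0 + p ^ e • n) := by
  intro a b h
  have h1 : p ^ e • a = p ^ e • b := add_left_cancel h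
  ext j
  have h2 := DFunLike.congr_fun h1 j
  simp only [Finsupp.coe_smul, Pi.smul_apply, smul_eq_mul] at h2
  exact Nat.eq_of_mul_eq_mul_left (pow_pos hp.out.pos e) h2

/-- the `p^e`-th root -/
noncomputable def rt : k →+* k := ((iterateFrobeniusEquiv k p e).symm : k →+* k)

lemma rt_pow (x : k) : rt p k e (x ^ p ^ e) = x := by
  have h := (iterateFrobeniusEquiv k p e).symm_apply_apply x
  rw [iterateFrobeniusEquiv_def] at h
  exact h

/-- Part of the splitting of Frobenius: `f ↦ ∑_n (coeff_{m0 + p^e n} f)^{1/p^e} x^n`. -/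
noncomputable def phi0 (f : MvPolynomial σ k) : MvPolynomial σ k :=
  ∑ n ∈ f.support.preimage (fun n => m0 + p ^ e • n) (emb_injective p e m0).injOn,
    monomial n (rt p k e (coeff (m0 + p ^ e • n) f))

lemma coeff_phi0 (f : MvPolynomial σ k) (n : σ →₀ ℕ) :
    coeff n (phi0 p k e m0 f) = rt p k e (coeff (m0 + p ^ e • n) f) := by
  classical
  rw [phi0, coeff_sum]
  simp only [coeff_monomial]
  rw [Finset.sum_ite_eq']
  split_ifs with h
  · rfl
  · rw [Finset.mem_preimage, mem_support_iff, not_not] at h
    rw [h, map_zero]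

/-- the additive map -/
noncomputable def phi1 : MvPolynomial σ k →+ MvPolynomial σ k where
  toFun := phi0 p k e m0
  map_zero' := by
    ext n
    rw [coeff_phi0, coeff_zero, map_zero, coeff_zero]
  map_add' f g := by
    ext n
    rw [coeff_phi0, coeff_add, coeff_add, map_add, coeff_phi0, coeff_phi0]

lemma phi1_apply (f : MvPolynomial σ k) : phi1 p k e m0 f = phi0 p k e m0 f := rfl

lemma phi1_mul (hm0 : ∀ j, m0 j < p ^ e) (a x : MvPolynomial σ k) :
    phi1 p k e m0 (a ^ p ^ e * x) = a * phi1 p k e m0 x := by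
  classical
  induction a using MvPolynomial.induction_on' with
  | monomial i c =>
    ext n
    rw [phi1_apply, phi1_apply, coeff_phi0, monomial_pow, coeff_monomial_mul', coeff_monomial_mul',
      coeff_phi0]
    have hiff : (p ^ e • i ≤ m0 + p ^ e • n) ↔ i ≤ n := by
      constructor
      · intro h j
        have h1 := h j
        simp only [Finsupp.coe_smul, Pi.smul_apply, smul_eq_mul, Finsupp.coe_add,
          Pi.add_apply] at h1
        by_contra hlt
        have h2 : n j + 1 ≤ i j := by omega
        have h3 := Nat.mul_le_mul_left (p ^ e) h2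
        have h4 := hm0 j
        rw [mul_add, mul_one] at h3
        omega
      · intro h j
        have h1 := Nat.mul_le_mul_left (p ^ e) (h j)
        simp only [Finsupp.coe_smul, Pi.smul_apply, smul_eq_mul, Finsupp.coe_add,
          Pi.add_apply]
        omega
    by_cases h : i ≤ n
    · rw [if_pos h, if_pos (hiff.mpr h), map_mul, rt_pow]
      have h2 : m0 + p ^ e • n - p ^ e • i = m0 + p ^ e • (n - i) := by
        ext j
        have h1 := h j
        simp only [Finsupp.coe_smul, Pi.smul_apply, smul_eq_mul, Finsupp.coe_add,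
          Pi.add_apply, Finsupp.coe_tsub, Pi.sub_apply]
        rw [Nat.mul_sub]
        have h3 := Nat.mul_le_mul_left (p ^ e) h1
        omega
      rw [h2]
    · rw [if_neg h, if_neg (fun h' => h (hiff.mp h')), map_zero]
  | add a b ha hb =>
    rw [add_pow_char_pow, add_mul, map_add, ha, hb, add_mul]

end poly

/-- The polynomial ring is strongly F-regular. -/
theorem isStronglyFRegular_mvPolynomial (p : ℕ) [hp : Fact p.Prime] (k : Type u) [Field k]
    [CharP k p] [PerfectRing k p] (σ : Type) [Finite σ] :
    IsStronglyFRegular p (MvPolynomial σ k) := by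
  classical
  intro c hc
  obtain ⟨m0, hm0⟩ := ne_zero_iff.mp hc
  set e := c.totalDegree + 1 with he
  have hlt : c.totalDegree < p ^ e :=
    (Nat.lt_succ_self _).trans_le (Nat.lt_pow_self hp.out.one_lt).le
  have hdeg : ∀ m : σ →₀ ℕ, coeff m c ≠ 0 → ∀ j, m j < p ^ e := by
    intro m hm j
    have h1 := le_totalDegree (mem_support_iff.mpr hm)
    have h2 : m j ≤ m.sum fun _ e => e := by
      by_cases hj : j ∈ m.support
      · exact Finset.single_le_sum (f := fun i => m i) (fun _ _ => Nat.zero_le _) hj
      · rw [Finsupp.notMem_support_iff.mp hj]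
        exact Nat.zero_le _
    omega
  set l := rt p k e (coeff m0 c) with hl
  have hl0 : l ≠ 0 := by
    rw [hl, Ne, map_eq_zero]
    exact hm0
  have hc1 : phi0 p k e m0 c = C l := by
    ext n
    rw [coeff_phi0, coeff_C]
    split_ifs with h
    · subst h
      rw [smul_zero, add_zero]
    · have hz : coeff (m0 + p ^ e • n) c = 0 := by
        by_contra hne
        obtain ⟨j, hj⟩ := DFunLike.ne_iff.mp (Ne.symm h)
        have h1 := hdeg _ hne j
        simp only [Finsupp.coe_smul, Pi.smul_apply, smul_eq_mul, Finsupp.coe_add,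
          Pi.add_apply] at h1
        have h2 : 1 ≤ n j := Nat.one_le_iff_ne_zero.mpr hj
        have h3 := Nat.mul_le_mul_left (p ^ e) h2
        omega
      rw [hz, map_zero]
  refine ⟨e, Nat.succ_pos _, (AddMonoidHom.mulLeft (C l⁻¹)).comp (phi1 p k e m0), ?_, ?_⟩
  · intro a x
    simp only [AddMonoidHom.comp_apply, AddMonoidHom.coe_mulLeft]
    rw [phi1_mul p k e m0 (hdeg m0 hm0)]
    ring
  · simp only [AddMonoidHom.comp_apply, AddMonoidHom.coe_mulLeft]
    rw [phi1_apply, hc1, ← C_mul, inv_mul_cancel₀ hl0, C_1]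

section summand

variable {R : Type u} {P : Type v} [CommRing R] [CommRing P] (i : R →+* P)
  (hi : Function.Injective i) (ρ : P →+ R) (hρ : ∀ r x, ρ (i r * x) = r * ρ x) (hρ1 : ρ 1 = 1)

include hi hρ hρ1 in
/-- A direct summand of a strongly F-regular ring is strongly F-regular. -/
theorem isStronglyFRegular_of_summand (p : ℕ) (hP : IsStronglyFRegular p P) :
    IsStronglyFRegular p R := by
  intro c hc
  obtain ⟨e, he, φ, hφ, hφc⟩ := hP (i c) (fun h => hc (hi (by rw [h, map_zero])))
  refine ⟨e, he, (ρ.comp φ).comp i.toAddMonoidHom, ?_, ?_⟩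
  · intro a x
    change ρ (φ (i (a ^ p ^ e * x))) = a * ρ (φ (i x))
    rw [map_mul, map_pow, hφ, hρ]
  · change ρ (φ (i c)) = 1
    rw [hφc, hρ1]

include hi hρ hρ1 in
/-- A direct summand of an integrally closed domain is integrally closed. -/
theorem isIntegrallyClosed_of_summand [IsDomain R] [IsDomain P] [IsIntegrallyClosed P] :
    IsIntegrallyClosed R := by
  rw [isIntegrallyClosed_iff (FractionRing R)]
  intro x hx
  let j : FractionRing R →+* FractionRing P := IsFractionRing.map hi
  have hj : ∀ r, j (algebraMap R _ r) = algebraMap P _ (i r) := fun r => IsLocalization.map_eq _ r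
  have hint : IsIntegral P (j x) :=
    hx.map_of_comp_eq i j (RingHom.ext fun r => (hj r).symm)
  obtain ⟨y, hy⟩ := IsIntegrallyClosed.isIntegral_iff.mp hint
  obtain ⟨a, b, hb, rfl⟩ := IsFractionRing.div_surjective (A := R) x
  have hb0 : algebraMap R (FractionRing R) b ≠ 0 :=
    IsFractionRing.to_map_ne_zero_of_mem_nonZeroDivisors hb
  have h1 : i b * y = i a := by
    apply IsFractionRing.injective P (FractionRing P)
    rw [map_mul, hy, ← hj, ← hj, ← map_mul, mul_div_cancel₀ _ hb0]
  have h2 : ∀ r, ρ (i r) = r := by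
    intro r
    have := hρ r 1
    rwa [mul_one, hρ1, mul_one] at this
  refine ⟨ρ y, ?_⟩
  rw [eq_div_iff hb0, ← map_mul]
  congr 1
  rw [mul_comm, ← hρ, h1, h2]

end summand

end Pool.Agent.W498.Lift
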